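import Mathlib
import Pool.Agent.Helper365.Halve

set_option autoImplicit false

open WeierstrassCurve Height

namespace Pool.Agent.Helper365

lemma sqf_part {k l t N : ℤ} (hk : k ≠ 0) (hN : N ≠ 0) (hkl : k * l = t ^ 2)
    (hp : ∀ p : ℕ, p.Prime → (p : ℤ) ∣ k → (p : ℤ) ∣ l → (p : ℤ) ∣ N) :
    ∃ c s : ℤ, k = c * s ^ 2 ∧ c ∣ N ∧ c ≠ 0 ∧ s ≠ 0 := by
  obtain ⟨a, b, hab, hsq⟩ := Nat.sq_mul_squarefree k.natAbs
  have hka : k.natAbs ≠ 0 := Int.natAbs_ne_zero.mpr hk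
  have ha0 : a ≠ 0 := by rintro rfl; simp at hab; exact hka hab.symm
  have hb0 : b ≠ 0 := by rintro rfl; simp at hab; exact hka hab.symm
  have hN0 : N.natAbs ≠ 0 := Int.natAbs_ne_zero.mpr hN
  -- every prime dividing a divides l
  have hpa : ∀ p : ℕ, p.Prime → p ∣ a → p ∣ N.natAbs := by
    intro p pp hpa
    have h1 : (p : ℤ) ∣ k := by
      rw [← Int.natCast_dvd_natCast, ] at hpa
      rw [Int.natCast_dvd]
      rw [← hab]
      exact Dvd.dvd.mul_left (by exact_mod_cast hpa) _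
    have h2 : (p : ℤ) ∣ l := by
      rw [Int.natCast_dvd]
      have h3 : k.natAbs * l.natAbs = t.natAbs ^ 2 := by
        rw [← Int.natAbs_mul, hkl, Int.natAbs_pow]
      rw [← hab] at h3
      have h4 : b ^ 2 ∣ t.natAbs ^ 2 := ⟨a * l.natAbs, by rw [← h3]; ring⟩
      have h5 : b ∣ t.natAbs := (Nat.pow_dvd_pow_iff (by norm_num)).mp h4
      obtain ⟨t', ht'⟩ := h5
      have h6 : a * l.natAbs = t' ^ 2 := by
        have : b ^ 2 * (a * l.natAbs) = b ^ 2 * t' ^ 2 := by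
          rw [ht'] at h3
          rw [← mul_pow, ← h3]; ring
        exact Nat.eq_of_mul_eq_mul_left (by positivity) this
      have h7 : p ∣ t' := by
        apply pp.dvd_of_dvd_pow (n := 2)
        rw [← h6]
        exact Dvd.dvd.mul_right hpa _
      obtain ⟨a', ha'⟩ := hpa
      have h8 : ¬ p ∣ a' := by
        intro h9
        have : p * p ∣ a := by rw [ha']; exact Nat.mul_dvd_mul_left p h9
        exact pp.one_lt.ne' (Nat.isUnit_iff.mp (hsq p this))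
      have h10 : p ∣ a' * l.natAbs := by
        have h11 : p ^ 2 ∣ t' ^ 2 := (Nat.pow_dvd_pow_iff (by norm_num)).mpr h7
        rw [← h6, ha', sq, mul_assoc] at h11
        exact Nat.dvd_of_mul_dvd_mul_left pp.pos h11
      exact (pp.dvd_mul.mp h10).resolve_left h8
    exact Int.natCast_dvd.mp (hp p pp h1 h2)
  have hadvd : a ∣ N.natAbs := by
    rw [← Nat.prod_primeFactors_of_squarefree hsq]
    refine dvd_trans (Finset.prod_dvd_prod_of_subset _ _ _ ?_) (Nat.prod_primeFactors_dvd N.natAbs)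
    intro p hp'
    rw [Nat.mem_primeFactors] at hp' ⊢
    exact ⟨hp'.1, hpa p hp'.1 hp'.2.1, hN0⟩
  rcases Int.natAbs_eq k with hk' | hk'
  · refine ⟨a, b, ?_, ?_, by exact_mod_cast ha0, by exact_mod_cast hb0⟩
    · rw [hk', ← hab]; push_cast; ring
    · exact Int.natCast_dvd.mpr hadvd
  · refine ⟨-a, b, ?_, ?_, by simpa using ha0, by exact_mod_cast hb0⟩
    · rw [hk', ← hab]; push_cast; ring
    · rw [Int.neg_dvd]; exact Int.natCast_dvd.mpr hadvd

lemma rat_sq_int {w : ℚ} {N : ℤ} (h : w ^ 2 = N) : ∃ t : ℤ, w = t := by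
  have h1 : (w ^ 2).den = 1 := by rw [h]; simp
  rw [Rat.den_pow] at h1
  have h2 : w.den = 1 := by
    have := Nat.pow_eq_one.mp h1
    rcases this with h | h
    · exact h
    · norm_num at h
  exact ⟨w.num, (Rat.coe_int_num_of_den_eq_one h2).symm⟩

lemma pt_class {e1 e2 e3 : ℤ} (h12 : e1 ≠ e2) (h13 : e1 ≠ e3) (h23 : e2 ≠ e3) {x y : ℚ} (hy : y ≠ 0)
    (h : y ^ 2 = (x + e1) * (x + e2) * (x + e3)) :
    ∃ (c1 c2 c3 : ℤ) (r1 r2 r3 : ℚ), c1 ∣ (e1 - e2) * (e1 - e3) * (e2 - e3) ∧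
      c2 ∣ (e1 - e2) * (e1 - e3) * (e2 - e3) ∧ c3 ∣ (e1 - e2) * (e1 - e3) * (e2 - e3) ∧
      c1 ≠ 0 ∧ c2 ≠ 0 ∧ c3 ≠ 0 ∧ r1 ≠ 0 ∧ r2 ≠ 0 ∧ r3 ≠ 0 ∧
      x + e1 = c1 * r1 ^ 2 ∧ x + e2 = c2 * r2 ^ 2 ∧ x + e3 = c3 * r3 ^ 2 := by
  set N : ℤ := (e1 - e2) * (e1 - e3) * (e2 - e3) with hNdef
  have hN : N ≠ 0 := by
    rw [hNdef]
    exact mul_ne_zero (mul_ne_zero (sub_ne_zero.mpr h12) (sub_ne_zero.mpr h13)) (sub_ne_zero.mpr h23)
  set m : ℤ := x.num with hm
  set n : ℤ := (x.den : ℤ) with hn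
  have hn0 : n ≠ 0 := by rw [hn]; exact_mod_cast x.den_nz
  have hnpos : 0 < n := by rw [hn]; exact_mod_cast x.den_pos
  have hnq : (n : ℚ) ≠ 0 := by exact_mod_cast hn0
  have hx : x = m / n := by
    rw [hm, hn]; push_cast; exact (Rat.num_div_den x).symm
  have hcop : IsCoprime m n := by
    rw [hm, hn]; exact Rat.isCoprime_num_den x
  have hk : ∀ e : ℤ, x + e = ((m + e * n : ℤ) : ℚ) / n := by
    intro e
    rw [hx]; push_cast; field_simp
  set k1 : ℤ := m + e1 * n with hk1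
  set k2 : ℤ := m + e2 * n with hk2
  set k3 : ℤ := m + e3 * n with hk3
  have hprod : (y * n ^ 2) ^ 2 = ((n * k1 * k2 * k3 : ℤ) : ℚ) := by
    rw [mul_pow, h, hk e1, hk e2, hk e3, ← hk1, ← hk2, ← hk3]
    push_cast
    field_simp
  obtain ⟨t, ht⟩ := rat_sq_int hprod
  have htt : n * k1 * k2 * k3 = t ^ 2 := by
    rw [ht] at hprod
    exact_mod_cast hprod.symm
  have ht0 : t ≠ 0 := by
    rintro rfl
    rw [Int.cast_zero] at ht
    have : y * (n : ℚ) ^ 2 ≠ 0 := by positivity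
    exact this ht
  have hk10 : k1 ≠ 0 := by
    intro h0; apply ht0
    rw [h0] at htt; simp at htt; exact pow_eq_zero_iff (two_ne_zero) |>.mp htt.symm
  have hk20 : k2 ≠ 0 := by
    intro h0; apply ht0
    rw [h0] at htt; simp at htt; exact pow_eq_zero_iff (two_ne_zero) |>.mp htt.symm
  have hk30 : k3 ≠ 0 := by
    intro h0; apply ht0
    rw [h0] at htt; simp at htt; exact pow_eq_zero_iff (two_ne_zero) |>.mp htt.symm
  -- primes
  have hpn : ∀ p : ℕ, p.Prime → ∀ e : ℤ, (p : ℤ) ∣ m + e * n → ¬ (p : ℤ) ∣ n := by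
    intro p pp e h1 h2
    have h3 : (p : ℤ) ∣ m := by
      have := dvd_sub h1 (Dvd.dvd.mul_left h2 e)
      simpa using this
    have h4 := hcop.isUnit_of_dvd' h3 h2
    have := Int.isUnit_iff.mp h4
    have := pp.one_lt
    omega
  have hpd : ∀ p : ℕ, p.Prime → ∀ e e' : ℤ, (p : ℤ) ∣ m + e * n → (p : ℤ) ∣ m + e' * n → (p : ℤ) ∣ e - e' := by
    intro p pp e e' h1 h2
    have h3 : (p : ℤ) ∣ (e - e') * n := by
      have := dvd_sub h1 h2
      have h5 : m + e * n - (m + e' * n) = (e - e') * n := by ring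
      rwa [h5] at this
    rcases (Int.Prime.dvd_mul' pp h3) with h4 | h4
    · exact h4
    · exact absurd h4 (hpn p pp e h1)
  have dN12 : (e1 - e2) ∣ N := ⟨(e1 - e3) * (e2 - e3), by rw [hNdef]; ring⟩
  have dN13 : (e1 - e3) ∣ N := ⟨(e1 - e2) * (e2 - e3), by rw [hNdef]; ring⟩
  have dN23 : (e2 - e3) ∣ N := ⟨(e1 - e2) * (e1 - e3), by rw [hNdef]; ring⟩
  obtain ⟨c1, s1, hc1, hd1, hc10, hs1⟩ := sqf_part (k := k1) (l := n * k2 * k3) (t := t) hk10 hN
    (by rw [← htt]; ring) (by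
      intro p pp h1 h2
      rcases (Int.Prime.dvd_mul' pp h2) with h3 | h3
      · rcases (Int.Prime.dvd_mul' pp h3) with h4 | h4
        · exact absurd h4 (hpn p pp e1 h1)
        · exact dvd_trans (hpd p pp e1 e2 h1 h4) dN12
      · exact dvd_trans (hpd p pp e1 e3 h1 h3) dN13)
  obtain ⟨c2, s2, hc2, hd2, hc20, hs2⟩ := sqf_part (k := k2) (l := n * k1 * k3) (t := t) hk20 hN
    (by rw [← htt]; ring) (by
      intro p pp h1 h2
      rcases (Int.Prime.dvd_mul' pp h2) with h3 | h3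
      · rcases (Int.Prime.dvd_mul' pp h3) with h4 | h4
        · exact absurd h4 (hpn p pp e2 h1)
        · exact dvd_trans (hpd p pp e1 e2 h4 h1) dN12
      · exact dvd_trans (hpd p pp e2 e3 h1 h3) dN23)
  obtain ⟨c3, s3, hc3, hd3, hc30, hs3⟩ := sqf_part (k := k3) (l := n * k1 * k2) (t := t) hk30 hN
    (by rw [← htt]; ring) (by
      intro p pp h1 h2
      rcases (Int.Prime.dvd_mul' pp h2) with h3 | h3
      · rcases (Int.Prime.dvd_mul' pp h3) with h4 | h4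
        · exact absurd h4 (hpn p pp e3 h1)
        · exact dvd_trans (hpd p pp e1 e3 h4 h1) dN13
      · exact dvd_trans (hpd p pp e2 e3 h3 h1) dN23)
  obtain ⟨c0, s0, hc0, hd0, hc00, hs0⟩ := sqf_part (k := n) (l := k1 * k2 * k3) (t := t) (N := 1) hn0
    one_ne_zero (by rw [← htt]; ring) (by
      intro p pp h1 h2
      exfalso
      rcases (Int.Prime.dvd_mul' pp h2) with h3 | h3
      · rcases (Int.Prime.dvd_mul' pp h3) with h4 | h4
        · exact (hpn p pp e1 h4) h1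
        · exact (hpn p pp e2 h4) h1
      · exact (hpn p pp e3 h3) h1)
  have hc01 : c0 = 1 := by
    rcases Int.isUnit_iff.mp (isUnit_of_dvd_one hd0) with h1 | h1
    · exact h1
    · exfalso
      rw [h1] at hc0
      have : 0 < s0 ^ 2 := by positivity
      linarith
  rw [hc01, one_mul] at hc0
  have hs0q : (s0 : ℚ) ≠ 0 := by exact_mod_cast hs0
  have hnqs : (n : ℚ) = (s0 : ℚ) ^ 2 := by exact_mod_cast hc0
  refine ⟨c1, c2, c3, s1 / s0, s2 / s0, s3 / s0, hd1, hd2, hd3, hc10, hc20, hc30, ?_, ?_, ?_, ?_, ?_, ?_⟩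
  · exact div_ne_zero (by exact_mod_cast hs1) hs0q
  · exact div_ne_zero (by exact_mod_cast hs2) hs0q
  · exact div_ne_zero (by exact_mod_cast hs3) hs0q
  · rw [hk e1, ← hk1, hc1, hnqs]; push_cast; field_simp
  · rw [hk e2, ← hk2, hc2, hnqs]; push_cast; field_simp
  · rw [hk e3, ← hk3, hc3, hnqs]; push_cast; field_simp

end Pool.Agent.Helper365
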