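import Mathlib
import Pool.Agent.Helper365.Cls

set_option autoImplicit false

open WeierstrassCurve Height

namespace Pool.Agent.Helper365

/-- class relation -/
def Cl (e1 e2 e3 : ℤ) (c : ℤ × ℤ × ℤ) (P : Pt (e1 : ℚ) e2 e3) : Prop :=
  ∃ (x y : ℚ) (h : (crv (e1 : ℚ) e2 e3).toAffine.Nonsingular x y), P = Affine.Point.some x y h ∧
    ∃ r1 r2 r3 : ℚ, r1 ≠ 0 ∧ r2 ≠ 0 ∧ r3 ≠ 0 ∧
      x + e1 = c.1 * r1 ^ 2 ∧ x + e2 = c.2.1 * r2 ^ 2 ∧ x + e3 = c.2.2 * r3 ^ 2

lemma abs_le_of_dvd {c N : ℤ} (hN : N ≠ 0) (h : c ∣ N) : c ∈ Finset.Icc (-|N|) |N| := by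
  have h1 : |c| ≤ |N| := Int.le_of_dvd (abs_pos.mpr hN) ((abs_dvd_abs c N).mpr h)
  rw [Finset.mem_Icc]
  exact abs_le.mp h1

theorem descent_set {e1 e2 e3 : ℤ} (h12 : e1 ≠ e2) (h13 : e1 ≠ e3) (h23 : e2 ≠ e3) :
    ∃ U : Finset (Pt (e1 : ℚ) e2 e3), ∀ P : Pt (e1 : ℚ) e2 e3, ∃ u ∈ U, ∃ Q : Pt (e1 : ℚ) e2 e3,
      P = u + (Q + Q) := by
  classical
  have q12 : (e1 : ℚ) ≠ e2 := by exact_mod_cast h12
  have q13 : (e1 : ℚ) ≠ e3 := by exact_mod_cast h13
  have q23 : (e2 : ℚ) ≠ e3 := by exact_mod_cast h23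
  set N : ℤ := (e1 - e2) * (e1 - e3) * (e2 - e3) with hNdef
  have hN : N ≠ 0 := by
    rw [hNdef]
    exact mul_ne_zero (mul_ne_zero (sub_ne_zero.mpr h12) (sub_ne_zero.mpr h13)) (sub_ne_zero.mpr h23)
  let I : Finset ℤ := Finset.Icc (-|N|) |N|
  let T : Finset (ℤ × ℤ × ℤ) := I ×ˢ I ×ˢ I
  let rep : ℤ × ℤ × ℤ → Pt (e1 : ℚ) e2 e3 := fun c =>
    if h : ∃ P, Cl e1 e2 e3 c P then -(Classical.choose h) else 0
  have hT1 : (crv (e1 : ℚ) e2 e3).toAffine.Nonsingular (-(e1 : ℚ)) 0 := by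
    apply crv_nonsing q12 q13 q23; ring
  have hT2 : (crv (e1 : ℚ) e2 e3).toAffine.Nonsingular (-(e2 : ℚ)) 0 := by
    apply crv_nonsing q12 q13 q23; ring
  have hT3 : (crv (e1 : ℚ) e2 e3).toAffine.Nonsingular (-(e3 : ℚ)) 0 := by
    apply crv_nonsing q12 q13 q23; ring
  let S : Finset (Pt (e1 : ℚ) e2 e3) :=
    {0, Affine.Point.some _ _ hT1, Affine.Point.some _ _ hT2, Affine.Point.some _ _ hT3}
  refine ⟨T.image rep ∪ S, fun P => ?_⟩
  match P with
  | 0 =>
    refine ⟨0, ?_, 0, by simp⟩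
    apply Finset.mem_union_right
    simp [S]
  | .some x y h =>
    have q := crv_eqn.mp h.1
    by_cases hy : y = 0
    · subst hy
      have hq : (x + e1) * (x + e2) * (x + e3) = 0 := by rw [← q]; ring
      rcases mul_eq_zero.mp hq with hq' | hq'
      · rcases mul_eq_zero.mp hq' with hq'' | hq''
        · have hx : x = -(e1 : ℚ) := by linarith
          subst hx
          refine ⟨Affine.Point.some _ _ hT1, ?_, 0, by simp⟩
          apply Finset.mem_union_right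
          simp [S]
        · have hx : x = -(e2 : ℚ) := by linarith
          subst hx
          refine ⟨Affine.Point.some _ _ hT2, ?_, 0, by simp⟩
          apply Finset.mem_union_right
          simp [S]
      · have hx : x = -(e3 : ℚ) := by linarith
        subst hx
        refine ⟨Affine.Point.some _ _ hT3, ?_, 0, by simp⟩
        apply Finset.mem_union_right
        simp [S]
    · obtain ⟨c1, c2, c3, r1, r2, r3, d1, d2, d3, n1, n2, n3, m1, m2, m3, w1, w2, w3⟩ :=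
        pt_class h12 h13 h23 hy q
      have hcl : Cl e1 e2 e3 (c1, c2, c3) (Affine.Point.some x y h) :=
        ⟨x, y, h, rfl, r1, r2, r3, m1, m2, m3, w1, w2, w3⟩
      have hex : ∃ P, Cl e1 e2 e3 (c1, c2, c3) P := ⟨_, hcl⟩
      have hrep : rep (c1, c2, c3) = -(Classical.choose hex) := by
        simp only [rep]
        rw [dif_pos hex]
      have hspec := Classical.choose_spec hex
      set R := Classical.choose hex with hR
      obtain ⟨x', y', h', hR', r1', r2', r3', m1', m2', m3', w1', w2', w3'⟩ := hspec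
      obtain ⟨Q, hQ⟩ := add_double (r1 := c1 * r1 * r1') (r2 := c2 * r2 * r2') (r3 := c3 * r3 * r3')
        q12 q13 q23 h h'
        (by have : (c1 : ℚ) ≠ 0 := by exact_mod_cast n1
            positivity)
        (by have : (c2 : ℚ) ≠ 0 := by exact_mod_cast n2
            positivity)
        (by have : (c3 : ℚ) ≠ 0 := by exact_mod_cast n3
            positivity)
        (by rw [w1, w1']; ring) (by rw [w2, w2']; ring) (by rw [w3, w3']; ring)
      refine ⟨rep (c1, c2, c3), ?_, Q, ?_⟩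
      · apply Finset.mem_union_left
        apply Finset.mem_image_of_mem
        simp only [T, I, Finset.mem_product]
        exact ⟨abs_le_of_dvd hN d1, abs_le_of_dvd hN d2, abs_le_of_dvd hN d3⟩
      · rw [hrep, hQ, ← hR']
        abel

lemma ht_zero {e1 e2 e3 : ℚ} : ht (0 : Pt e1 e2 e3) = 0 := by
  rw [ht, Affine.Point.xRep_zero, logHeight_swap, ← logHeight₁_eq_logHeight, logHeight₁_zero]

lemma ht_pow_le {e1 e2 e3 : ℚ} {C : ℝ}
    (hC : ∀ P Q : Pt e1 e2 e3, |ht (P + Q) + ht (P - Q) - (2 * ht P + 2 * ht Q)| ≤ C)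
    (P : Pt e1 e2 e3) (n : ℕ) :
    ht ((2 ^ n : ℕ) • P) ≤ 4 ^ n * ht P + C * ((4 ^ n - 1) / 3) ∧
    4 ^ n * ht P - C * ((4 ^ n - 1) / 3) ≤ ht ((2 ^ n : ℕ) • P) := by
  induction n with
  | zero => simp
  | succ n ih =>
    have h1 : (2 ^ (n + 1) : ℕ) • P = (2 ^ n : ℕ) • P + (2 ^ n : ℕ) • P := by
      rw [pow_succ, mul_comm, mul_smul, two_smul]
    have h2 := hC ((2 ^ n : ℕ) • P) ((2 ^ n : ℕ) • P)
    rw [sub_self, ht_zero, ← h1, abs_le] at h2
    obtain ⟨ih1, ih2⟩ := ih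
    obtain ⟨h3, h4⟩ := h2
    constructor
    · calc ht ((2 ^ (n + 1) : ℕ) • P) ≤ 4 * ht ((2 ^ n : ℕ) • P) + C := by linarith
        _ ≤ 4 * (4 ^ n * ht P + C * ((4 ^ n - 1) / 3)) + C := by linarith
        _ = 4 ^ (n + 1) * ht P + C * ((4 ^ (n + 1) - 1) / 3) := by ring
    · calc 4 ^ (n + 1) * ht P - C * ((4 ^ (n + 1) - 1) / 3)
          = 4 * (4 ^ n * ht P - C * ((4 ^ n - 1) / 3)) - C := by ring
        _ ≤ 4 * ht ((2 ^ n : ℕ) • P) - C := by linarith
        _ ≤ ht ((2 ^ (n + 1) : ℕ) • P) := by linarith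

lemma finite_ht {e1 e2 e3 : ℚ} (B : ℝ) : {P : Pt e1 e2 e3 | ht P ≤ B}.Finite := by
  classical
  have hfin := NumberField.finite_setOfPred_logHeight₁_le (K := ℚ) B
  -- the map P ↦ xRep has finite fibres
  have h1 : ((fun P : Pt e1 e2 e3 => P.xRep) '' {P : Pt e1 e2 e3 | ht P ≤ B}).Finite := by
    apply Set.Finite.subset ((hfin.image (fun x : ℚ => ![x, 1])).union (Set.finite_singleton ![1, 0]))
    rintro _ ⟨P, hP, rfl⟩
    match P, hP with
    | 0, _ => right; simp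
    | .some x y h, hP =>
      left
      refine ⟨x, ?_, by simp⟩
      simp only [Set.mem_ofPred_eq, ht, Affine.Point.xRep_some] at hP
      simp only [Set.mem_ofPred_eq]
      rw [logHeight₁_eq_logHeight]
      exact hP
  apply Set.Finite.of_finite_fibers _ h1
  intro v _
  by_cases hv : ∃ P : Pt e1 e2 e3, P.xRep = v
  · obtain ⟨P, rfl⟩ := hv
    apply Set.Finite.subset (s := {P, -P}) (by simp)
    intro Q hQ
    have : Q.xRep = P.xRep := hQ.2
    rcases Affine.Point.eq_or_eq_neg_of_xRep_eq_xRep this with h | h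
    · left; exact h
    · right; exact h
  · apply Set.Finite.subset (Set.finite_empty)
    intro Q hQ
    exact absurd ⟨Q, hQ.2⟩ hv

/-- data of one curve needed for the pigeonhole argument -/
theorem one_curve {e1 e2 e3 : ℤ} (h12 : e1 ≠ e2) (h13 : e1 ≠ e3) (h23 : e2 ≠ e3) :
    ∃ c : ℝ, 0 ≤ c ∧ ∀ M : ℝ, ∃ (N : ℕ) (f : ℕ → Pt (e1 : ℚ) e2 e3 → Fin N),
      ∀ (n : ℕ) (P P' : Pt (e1 : ℚ) e2 e3), ht P ≤ M * 4 ^ n → ht P' ≤ M * 4 ^ n →
        f n P = f n P' → ht (P - P') ≤ c * 4 ^ n := by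
  classical
  have q12 : (e1 : ℚ) ≠ e2 := by exact_mod_cast h12
  have q13 : (e1 : ℚ) ≠ e3 := by exact_mod_cast h13
  have q23 : (e2 : ℚ) ≠ e3 := by exact_mod_cast h23
  obtain ⟨C, hC0, hC⟩ := par_law q12 q13 q23
  obtain ⟨U, hU⟩ := descent_set h12 h13 h23
  set B : ℝ := ∑ u ∈ U, ht u with hB
  have hB0 : 0 ≤ B := Finset.sum_nonneg (fun u _ => ht_nonneg u)
  have hBu : ∀ u ∈ U, ht u ≤ B := fun u hu =>
    Finset.single_le_sum (f := fun u => ht u) (fun u _ => ht_nonneg u) hu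
  have hadd : ∀ P Q : Pt (e1 : ℚ) e2 e3, ht (P + Q) ≤ 2 * ht P + 2 * ht Q + C := by
    intro P Q
    have h1 := (abs_le.mp (hC P Q)).2
    have h2 := ht_nonneg (P - Q)
    linarith
  have hsub : ∀ P Q : Pt (e1 : ℚ) e2 e3, ht (P - Q) ≤ 2 * ht P + 2 * ht Q + C := by
    intro P Q
    have h1 := (abs_le.mp (hC P Q)).2
    have h2 := ht_nonneg (P + Q)
    linarith
  set c1 : ℝ := B + 2 * C with hc1
  have hc10 : 0 ≤ c1 := by positivity
  have hdec : ∀ (n : ℕ) (P : Pt (e1 : ℚ) e2 e3), ∃ z x : Pt (e1 : ℚ) e2 e3,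
      P = z + (2 ^ n : ℕ) • x ∧ ht z ≤ c1 * 4 ^ n := by
    intro n P
    induction n with
    | zero => exact ⟨0, P, by simp, by rw [ht_zero]; positivity⟩
    | succ n ih =>
      obtain ⟨z, x, hP, hz⟩ := ih
      obtain ⟨u, hu, x', hx⟩ := hU x
      refine ⟨z + (2 ^ n : ℕ) • u, x', ?_, ?_⟩
      · rw [hP, hx, nsmul_add, nsmul_add, pow_succ, mul_nsmul, two_nsmul, add_assoc]
      · have h1 := hadd z ((2 ^ n : ℕ) • u)
        have h2 := (ht_pow_le hC u n).1
        have h3 := hBu u hu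
        have h4 : (1 : ℝ) ≤ 4 ^ n := one_le_pow₀ (by norm_num)
        have h5 : (4 : ℝ) ^ n * ht u ≤ 4 ^ n * B := mul_le_mul_of_nonneg_left h3 (by positivity)
        have h6 : C * (((4 : ℝ) ^ n - 1) / 3) ≤ C * 4 ^ n / 3 := by
          rw [mul_div_assoc]
          apply mul_le_mul_of_nonneg_left _ hC0
          linarith
        have h7 : C ≤ C * 4 ^ n := le_mul_of_one_le_right hC0 h4
        have h8 : 0 ≤ C * (4 : ℝ) ^ n := by positivity
        have h9 : 0 ≤ B * (4 : ℝ) ^ n := by positivity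
        rw [pow_succ, hc1]
        rw [hc1] at hz
        nlinarith
  choose z x hzx hz using hdec
  refine ⟨4 * c1 + C, by positivity, fun M => ?_⟩
  set R : ℝ := 2 * M + 2 * c1 + C + C with hR
  have hfin := finite_ht (e1 := (e1 : ℚ)) (e2 := e2) (e3 := e3) R
  set F : Finset (Pt (e1 : ℚ) e2 e3) := hfin.toFinset with hF
  refine ⟨F.card + 1, fun n P => if h : x n P ∈ F then (F.equivFin ⟨x n P, h⟩).castSucc else Fin.last _, ?_⟩
  intro n P P' hP hP' hff
  have h4 : (1 : ℝ) ≤ 4 ^ n := one_le_pow₀ (by norm_num)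
  have hmem : ∀ Q : Pt (e1 : ℚ) e2 e3, ht Q ≤ M * 4 ^ n → x n Q ∈ F := by
    intro Q hQ
    rw [hF, Set.Finite.mem_toFinset]
    simp only [Set.mem_ofPred_eq]
    have h5 : (2 ^ n : ℕ) • x n Q = Q - z n Q := by
      have := hzx n Q
      rw [eq_sub_iff_add_eq, add_comm]
      exact this.symm
    have h6 := hsub Q (z n Q)
    rw [← h5] at h6
    have h7 := (ht_pow_le hC (x n Q) n).2
    have h8 := hz n Q
    have h9 : C * (((4 : ℝ) ^ n - 1) / 3) ≤ C * 4 ^ n := by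
      apply mul_le_mul_of_nonneg_left _ hC0
      linarith
    have h10 : C ≤ C * 4 ^ n := le_mul_of_one_le_right hC0 h4
    have h11 : (4 : ℝ) ^ n * ht (x n Q) ≤ 4 ^ n * R := by
      rw [hR]
      nlinarith
    exact le_of_mul_le_mul_left h11 (by positivity)
  have m1 := hmem P hP
  have m2 := hmem P' hP'
  simp only [dif_pos m1, dif_pos m2] at hff
  have h5 : x n P = x n P' := by
    have h6 := Fin.castSucc_injective _ hff
    have h7 := F.equivFin.injective h6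
    exact congrArg Subtype.val h7
  have h6 : P - P' = z n P - z n P' := by
    conv_lhs => rw [hzx n P, hzx n P', h5]
    abel
  rw [h6]
  have h7 := hsub (z n P) (z n P')
  have h8 := hz n P
  have h9 := hz n P'
  have h10 : C ≤ C * 4 ^ n := le_mul_of_one_le_right hC0 h4
  nlinarith

end Pool.Agent.Helper365
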