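import Mathlib
import Pool.Agent.Helper365.Desc

set_option autoImplicit false

open WeierstrassCurve Height

namespace Pool.Agent.Helper365

lemma ne_of_abc {α β γ : ℤ} (hα : α ≠ 0) (hβ : β ≠ 0) (hγ : γ ≠ 0) (hαβ : α ≠ β) (hαγ : α ≠ γ)
    (hβγ : β ≠ γ) : β * γ ≠ γ * α ∧ β * γ ≠ α * β ∧ γ * α ≠ α * β := by
  refine ⟨?_, ?_, ?_⟩
  · intro h
    apply hαβ
    have : γ * (β - α) = 0 := by linarith
    rcases mul_eq_zero.mp this with h | h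
    · exact absurd h hγ
    · linarith
  · intro h
    apply hαγ
    have : β * (γ - α) = 0 := by linarith
    rcases mul_eq_zero.mp this with h | h
    · exact absurd h hβ
    · linarith
  · intro h
    apply hβγ
    have : α * (γ - β) = 0 := by linarith
    rcases mul_eq_zero.mp this with h | h
    · exact absurd h hα
    · linarith

/-- the point attached to four squares -/
lemma pnt_ns {α β γ : ℤ} (hα : α ≠ 0) (hβ : β ≠ 0) (hγ : γ ≠ 0) (hαβ : α ≠ β) (hαγ : α ≠ γ)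
    (hβγ : β ≠ γ) {za zb zc zd E : ℤ} (hza : za ≠ 0) (hb : zb ^ 2 = za ^ 2 + α * E)
    (hc : zc ^ 2 = za ^ 2 + β * E) (hd : zd ^ 2 = za ^ 2 + γ * E) :
    (crv ((β * γ : ℤ) : ℚ) ((γ * α : ℤ) : ℚ) ((α * β : ℤ) : ℚ)).toAffine.Nonsingular
      ((α * β * γ * E : ℤ) / (za : ℚ) ^ 2) ((α * β * γ * (zb * zc * zd) : ℤ) / (za : ℚ) ^ 3) := by
  obtain ⟨h1, h2, h3⟩ := ne_of_abc hα hβ hγ hαβ hαγ hβγ
  apply crv_nonsing (by exact_mod_cast h1) (by exact_mod_cast h2) (by exact_mod_cast h3)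
  have hza' : (za : ℚ) ≠ 0 := by exact_mod_cast hza
  have hb' : (zb : ℚ) ^ 2 = za ^ 2 + α * E := by exact_mod_cast hb
  have hc' : (zc : ℚ) ^ 2 = za ^ 2 + β * E := by exact_mod_cast hc
  have hd' : (zd : ℚ) ^ 2 = za ^ 2 + γ * E := by exact_mod_cast hd
  have hprod : ((zb : ℚ) * zc * zd) ^ 2 = (za ^ 2 + α * E) * (za ^ 2 + β * E) * (za ^ 2 + γ * E) := by
    rw [← hb', ← hc', ← hd']; ring
  push_cast
  rw [div_pow, mul_pow, hprod]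
  field_simp
  ring

noncomputable def pnt {α β γ : ℤ} (hα : α ≠ 0) (hβ : β ≠ 0) (hγ : γ ≠ 0) (hαβ : α ≠ β) (hαγ : α ≠ γ)
    (hβγ : β ≠ γ) {za zb zc zd E : ℤ} (hza : za ≠ 0) (hb : zb ^ 2 = za ^ 2 + α * E)
    (hc : zc ^ 2 = za ^ 2 + β * E) (hd : zd ^ 2 = za ^ 2 + γ * E) :
    Pt ((β * γ : ℤ) : ℚ) ((γ * α : ℤ) : ℚ) ((α * β : ℤ) : ℚ) :=
  Affine.Point.some _ _ (pnt_ns hα hβ hγ hαβ hαγ hβγ hza hb hc hd)

/-- the numerator `M_S` -/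
def MS (α β γ za zb zc zd E za' zb' zc' zd' E' : ℤ) : ℤ :=
  α * β * γ * E * E' * (E * za' ^ 2 + E' * za ^ 2)
    + 2 * (β * γ + γ * α + α * β) * E * E' * za ^ 2 * za' ^ 2
    + (α + β + γ) * (E * za' ^ 2 + E' * za ^ 2) * za ^ 2 * za' ^ 2
    + 2 * za ^ 4 * za' ^ 4 + 2 * (za * zb * zc * zd) * (za' * zb' * zc' * zd')

lemma log_den_le (x : ℚ) : Real.log x.den ≤ logHeight ![x, 1] := by
  rw [← logHeight₁_eq_logHeight, Rat.logHeight₁_eq_log_max]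
  apply Real.log_le_log
  · exact_mod_cast x.den_pos
  · exact_mod_cast le_max_right _ _

lemma gap_one {α β γ : ℤ} (hα : α ≠ 0) (hβ : β ≠ 0) (hγ : γ ≠ 0) (hαβ : α ≠ β) (hαγ : α ≠ γ)
    (hβγ : β ≠ γ) {za zb zc zd E : ℤ} (hza : za ≠ 0) (hb : zb ^ 2 = za ^ 2 + α * E)
    (hc : zc ^ 2 = za ^ 2 + β * E) (hd : zd ^ 2 = za ^ 2 + γ * E)
    {za' zb' zc' zd' E' : ℤ} (hza' : za' ≠ 0) (hb' : zb' ^ 2 = za' ^ 2 + α * E')
    (hc' : zc' ^ 2 = za' ^ 2 + β * E') (hd' : zd' ^ 2 = za' ^ 2 + γ * E')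
    (hΘ : E * za' ^ 2 - E' * za ^ 2 ≠ 0) :
    ∃ D : ℕ, 0 < D ∧ (E * za' ^ 2 - E' * za ^ 2) ^ 2 ∣ (D : ℤ) * MS α β γ za zb zc zd E za' zb' zc' zd' E' ∧
      Real.log D ≤ ht (pnt hα hβ hγ hαβ hαγ hβγ hza hb hc hd
        - pnt hα hβ hγ hαβ hαγ hβγ hza' hb' hc' hd') := by
  obtain ⟨n1, n2, n3⟩ := ne_of_abc hα hβ hγ hαβ hαγ hβγ
  have hzaq : (za : ℚ) ≠ 0 := by exact_mod_cast hza
  have hzaq' : (za' : ℚ) ≠ 0 := by exact_mod_cast hza'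
  have hαq : (α : ℚ) ≠ 0 := by exact_mod_cast hα
  have hβq : (β : ℚ) ≠ 0 := by exact_mod_cast hβ
  have hγq : (γ : ℚ) ≠ 0 := by exact_mod_cast hγ
  have hΘq : (E : ℚ) * za' ^ 2 - E' * za ^ 2 ≠ 0 := by exact_mod_cast hΘ
  have h1 := pnt_ns hα hβ hγ hαβ hαγ hβγ hza hb hc hd
  have h2 := pnt_ns hα hβ hγ hαβ hαγ hβγ hza' hb' hc' hd'
  have h2' : (crv ((β * γ : ℤ) : ℚ) ((γ * α : ℤ) : ℚ) ((α * β : ℤ) : ℚ)).toAffine.Nonsingular
      ((α * β * γ * E' : ℤ) / (za' : ℚ) ^ 2) (-((α * β * γ * (zb' * zc' * zd') : ℤ) / (za' : ℚ) ^ 3)) := by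
    apply crv_nonsing (by exact_mod_cast n1) (by exact_mod_cast n2) (by exact_mod_cast n3)
    rw [← crv_eqn.mp h2.1]; ring
  have hxne : ((α * β * γ * E : ℤ) / (za : ℚ) ^ 2) ≠ ((α * β * γ * E' : ℤ) / (za' : ℚ) ^ 2) := by
    intro h
    apply hΘq
    rw [div_eq_div_iff (by positivity) (by positivity)] at h
    push_cast at h
    have h3 : (α * β * γ : ℚ) * ((E : ℚ) * za' ^ 2 - E' * za ^ 2) = 0 := by linear_combination h
    rcases mul_eq_zero.mp h3 with h4 | h4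
    · exfalso
      have : (α * β * γ : ℚ) ≠ 0 := by positivity
      exact this h4
    · exact h4
  have key := xRep_add h1 h2' hxne
  rw [← neg_mk h2 h2', ← sub_eq_add_neg] at key
  set x : ℚ := (MS α β γ za zb zc zd E za' zb' zc' zd' E' : ℚ) / ((E * za' ^ 2 - E' * za ^ 2 : ℤ) : ℚ) ^ 2 with hx
  have hval : numr ((β * γ : ℤ) : ℚ) ((γ * α : ℤ) : ℚ) ((α * β : ℤ) : ℚ)
      ((α * β * γ * E : ℤ) / (za : ℚ) ^ 2) ((α * β * γ * E' : ℤ) / (za' : ℚ) ^ 2)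
      (((α * β * γ * (zb * zc * zd) : ℤ) / (za : ℚ) ^ 3) * (-((α * β * γ * (zb' * zc' * zd') : ℤ) / (za' : ℚ) ^ 3)))
      / (((α * β * γ * E : ℤ) / (za : ℚ) ^ 2) - ((α * β * γ * E' : ℤ) / (za' : ℚ) ^ 2)) ^ 2 = x := by
    have hden : ((α * β * γ * E : ℤ) / (za : ℚ) ^ 2) - ((α * β * γ * E' : ℤ) / (za' : ℚ) ^ 2)
      = (α * β * γ : ℚ) * ((E : ℚ) * za' ^ 2 - E' * za ^ 2) / (za ^ 2 * za' ^ 2) := by
      push_cast
      field_simp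
    have hnum : numr ((β * γ : ℤ) : ℚ) ((γ * α : ℤ) : ℚ) ((α * β : ℤ) : ℚ)
      ((α * β * γ * E : ℤ) / (za : ℚ) ^ 2) ((α * β * γ * E' : ℤ) / (za' : ℚ) ^ 2)
      (((α * β * γ * (zb * zc * zd) : ℤ) / (za : ℚ) ^ 3) * (-((α * β * γ * (zb' * zc' * zd') : ℤ) / (za' : ℚ) ^ 3)))
      = (α * β * γ : ℚ) ^ 2 * (MS α β γ za zb zc zd E za' zb' zc' zd' E' : ℚ) / (za ^ 2 * za' ^ 2) ^ 2 := by
      rw [numr, MS]
      push_cast
      field_simp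
      ring
    rw [hnum, hden, hx]
    push_cast
    have hc0 : (α * β * γ : ℚ) ≠ 0 := by positivity
    field_simp
  rw [hval] at key
  refine ⟨x.den, x.den_pos, ?_, ?_⟩
  · have h3 : (x.den : ℚ) * (MS α β γ za zb zc zd E za' zb' zc' zd' E' : ℚ)
      = x.num * ((E * za' ^ 2 - E' * za ^ 2 : ℤ) : ℚ) ^ 2 := by
      have h4 : x * x.den = x.num := Rat.mul_den_eq_num x
      have h5 : ((E * za' ^ 2 - E' * za ^ 2 : ℤ) : ℚ) ^ 2 ≠ 0 := by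
        have : ((E * za' ^ 2 - E' * za ^ 2 : ℤ) : ℚ) ≠ 0 := by exact_mod_cast hΘ
        positivity
      have h6 : x * ((E * za' ^ 2 - E' * za ^ 2 : ℤ) : ℚ) ^ 2 = (MS α β γ za zb zc zd E za' zb' zc' zd' E' : ℚ) := by
        rw [hx, div_mul_cancel₀ _ h5]
      rw [← h4, ← h6]; ring
    refine ⟨x.num, ?_⟩
    have h7 : ((x.den : ℤ) : ℚ) * ((MS α β γ za zb zc zd E za' zb' zc' zd' E' : ℤ) : ℚ)
      = ((x.num * (E * za' ^ 2 - E' * za ^ 2) ^ 2 : ℤ) : ℚ) := by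
      push_cast
      push_cast at h3
      exact h3
    have h8 : (x.den : ℤ) * MS α β γ za zb zc zd E za' zb' zc' zd' E' = x.num * (E * za' ^ 2 - E' * za ^ 2) ^ 2 := by
      exact_mod_cast h7
    rw [h8]; ring
  · have h9 : ht (pnt hα hβ hγ hαβ hαγ hβγ hza hb hc hd
        - pnt hα hβ hγ hαβ hαγ hβγ hza' hb' hc' hd') = logHeight ![x, 1] := by
      rw [ht, pnt, pnt, key]
    rw [h9]
    exact log_den_le x

end Pool.Agent.Helper365
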