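import Mathlib
import Pool.Agent.Helper365.Gap

set_option autoImplicit false

open WeierstrassCurve Height

namespace Pool.Agent.Helper365

lemma gcd_pow_dvd (k m : ℕ) (n : ℕ) : Nat.gcd k (m ^ n) ∣ (Nat.gcd k m) ^ n := by
  induction n with
  | zero => simp
  | succ n ih =>
    rw [pow_succ, pow_succ]
    exact dvd_trans (Nat.gcd_mul_right_dvd_mul_gcd k (m ^ n) m) (mul_dvd_mul_right ih _)

lemma ideal_bound {δ I : ℕ} {t1 t2 t3 t4 t5 E E' z0 z1 z2 z3 z4 z5 z0' z1' z2' z3' z4' z5' : ℤ}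
    (h1 : z1 ^ 2 = z0 ^ 2 + t1 * E) (h2 : z2 ^ 2 = z0 ^ 2 + t2 * E) (h3 : z3 ^ 2 = z0 ^ 2 + t3 * E)
    (h4 : z4 ^ 2 = z0 ^ 2 + t4 * E) (h5 : z5 ^ 2 = z0 ^ 2 + t5 * E)
    (h1' : z1' ^ 2 = z0' ^ 2 + t1 * E') (h2' : z2' ^ 2 = z0' ^ 2 + t2 * E')
    (h3' : z3' ^ 2 = z0' ^ 2 + t3 * E')
    (h4' : z4' ^ 2 = z0' ^ 2 + t4 * E') (h5' : z5' ^ 2 = z0' ^ 2 + t5 * E')
    (hg : Nat.gcd E.natAbs (z0.natAbs ^ 2) ∣ δ) (hg' : Nat.gcd E'.natAbs (z0'.natAbs ^ 2) ∣ δ)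
    (hI : (I : ℤ) ∣ E) (hI' : (I : ℤ) ∣ E')
    (m1 : (I : ℤ) ∣ MS t1 t2 t3 z0 z1 z2 z3 E z0' z1' z2' z3' E')
    (m2 : (I : ℤ) ∣ MS t1 t4 t5 z0 z1 z4 z5 E z0' z1' z4' z5' E')
    (m3 : (I : ℤ) ∣ MS (t3 - t2) (t4 - t2) (t5 - t2) z2 z3 z4 z5 E z2' z3' z4' z5' E') :
    I ∣ 16 * δ ^ 12 := by
  have step1 : (I : ℤ) ∣ 16 * z0 ^ 12 * z0' ^ 12 := by
    rw [← ZMod.intCast_zmod_eq_zero_iff_dvd] at hI hI' m1 m2 m3 ⊢
    simp only [MS] at m1 m2 m3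
    have c1 := congrArg (fun x : ℤ => (x : ZMod I)) h1
    have c2 := congrArg (fun x : ℤ => (x : ZMod I)) h2
    have c3 := congrArg (fun x : ℤ => (x : ZMod I)) h3
    have c4 := congrArg (fun x : ℤ => (x : ZMod I)) h4
    have c5 := congrArg (fun x : ℤ => (x : ZMod I)) h5
    have c1' := congrArg (fun x : ℤ => (x : ZMod I)) h1'
    have c2' := congrArg (fun x : ℤ => (x : ZMod I)) h2'
    have c3' := congrArg (fun x : ℤ => (x : ZMod I)) h3'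
    have c4' := congrArg (fun x : ℤ => (x : ZMod I)) h4'
    have c5' := congrArg (fun x : ℤ => (x : ZMod I)) h5'
    push_cast at c1 c2 c3 c4 c5 c1' c2' c3' c4' c5' m1 m2 m3 ⊢
    rw [hI] at c1 c2 c3 c4 c5 m1 m2 m3
    rw [hI'] at c1' c2' c3' c4' c5' m1 m2 m3
    simp only [mul_zero, add_zero, zero_mul, zero_add] at c1 c2 c3 c4 c5 c1' c2' c3' c4' c5' m1 m2 m3
    have hu3 : 2 * (z2 : ZMod I) ^ 4 * (z2' : ZMod I) ^ 4 = 2 * (z0 : ZMod I) ^ 4 * (z0' : ZMod I) ^ 4 := by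
      have e1 : (z2 : ZMod I) ^ 4 = (z0 : ZMod I) ^ 4 := by
        calc (z2 : ZMod I) ^ 4 = ((z2 : ZMod I) ^ 2) ^ 2 := by ring
          _ = _ := by rw [c2]; ring
      have e2 : (z2' : ZMod I) ^ 4 = (z0' : ZMod I) ^ 4 := by
        calc (z2' : ZMod I) ^ 4 = ((z2' : ZMod I) ^ 2) ^ 2 := by ring
          _ = _ := by rw [c2']; ring
      rw [e1, e2]
    rw [hu3] at m3
    have w1 := eq_neg_of_add_eq_zero_left m1
    have w2 := eq_neg_of_add_eq_zero_left m2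
    have w3 := eq_neg_of_add_eq_zero_left m3
    have hv : (2 * ((z0 : ZMod I) * z1 * z2 * z3) * (z0' * z1' * z2' * z3'))
        * (2 * ((z0 : ZMod I) * z1 * z4 * z5) * (z0' * z1' * z4' * z5'))
        * (2 * ((z2 : ZMod I) * z3 * z4 * z5) * (z2' * z3' * z4' * z5'))
        = 8 * (z0 : ZMod I) ^ 12 * (z0' : ZMod I) ^ 12 := by
      calc _ = 8 * ((z0 : ZMod I) ^ 2 * (z1 : ZMod I) ^ 2 * (z2 : ZMod I) ^ 2 * (z3 : ZMod I) ^ 2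
              * (z4 : ZMod I) ^ 2 * (z5 : ZMod I) ^ 2) * ((z0' : ZMod I) ^ 2 * (z1' : ZMod I) ^ 2
              * (z2' : ZMod I) ^ 2 * (z3' : ZMod I) ^ 2
              * (z4' : ZMod I) ^ 2 * (z5' : ZMod I) ^ 2) := by ring
        _ = _ := by
          rw [c1, c2, c3, c4, c5, c1', c2', c3', c4', c5']; ring
    have hu : (2 * (z0 : ZMod I) ^ 4 * (z0' : ZMod I) ^ 4) * (2 * (z0 : ZMod I) ^ 4 * (z0' : ZMod I) ^ 4)
        * (2 * (z0 : ZMod I) ^ 4 * (z0' : ZMod I) ^ 4)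
        = - (8 * (z0 : ZMod I) ^ 12 * (z0' : ZMod I) ^ 12) := by
      rw [← hv]
      nth_rewrite 1 [w1]
      nth_rewrite 1 [w2]
      nth_rewrite 1 [w3]
      ring
    linear_combination hu
  have hIn : I ∣ E.natAbs := Int.natCast_dvd.mp hI
  have hIn' : I ∣ E'.natAbs := Int.natCast_dvd.mp hI'
  have hga : Nat.gcd I (z0.natAbs ^ 2) ∣ δ := dvd_trans (Nat.gcd_dvd_gcd_of_dvd_left _ hIn) hg
  have hga' : Nat.gcd I (z0'.natAbs ^ 2) ∣ δ := dvd_trans (Nat.gcd_dvd_gcd_of_dvd_left _ hIn') hg'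
  have hs : I ∣ 16 * (z0.natAbs ^ 2) ^ 6 * (z0'.natAbs ^ 2) ^ 6 := by
    have := Int.natCast_dvd.mp step1
    rw [Int.natAbs_mul, Int.natAbs_mul, Int.natAbs_pow, Int.natAbs_pow] at this
    rw [← pow_mul, ← pow_mul]
    exact this
  have hs2 : I ∣ Nat.gcd I (16 * (z0.natAbs ^ 2) ^ 6 * (z0'.natAbs ^ 2) ^ 6) := Nat.dvd_gcd dvd_rfl hs
  refine dvd_trans hs2 ?_
  refine dvd_trans (Nat.gcd_mul_right_dvd_mul_gcd _ _ _) ?_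
  have e12 : 16 * δ ^ 12 = (16 * δ ^ 6) * δ ^ 6 := by ring
  rw [e12]
  apply Nat.mul_dvd_mul
  · refine dvd_trans (Nat.gcd_mul_right_dvd_mul_gcd _ _ _) ?_
    apply Nat.mul_dvd_mul
    · exact Nat.gcd_dvd_right _ _
    · exact dvd_trans (gcd_pow_dvd _ _ _) (pow_dvd_pow_of_dvd hga 6)
  · exact dvd_trans (gcd_pow_dvd _ _ _) (pow_dvd_pow_of_dvd hga' 6)

/-- combining the three denominators -/
lemma comb_den {G K D1 D2 D3 : ℕ} {M1 M2 M3 : ℕ} (hD1 : 0 < D1) (hD2 : 0 < D2) (hD3 : 0 < D3)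
    (h1 : G ^ 2 ∣ D1 * M1) (h2 : G ^ 2 ∣ D2 * M2) (h3 : G ^ 2 ∣ D3 * M3) (hK0 : 0 < K)
    (hK : Nat.gcd (Nat.gcd G M1) (Nat.gcd M2 M3) ∣ K) :
    G ^ 2 ≤ K ^ 2 * (D1 * D2 * D3) := by
  set P := D1 * D2 * D3 with hP
  have hPpos : 0 < P := by positivity
  have a1 : G ^ 2 ∣ P * M1 := by
    refine dvd_trans h1 ⟨D2 * D3, by rw [hP]; ring⟩
  have a2 : G ^ 2 ∣ P * M2 := by
    refine dvd_trans h2 ⟨D1 * D3, by rw [hP]; ring⟩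
  have a3 : G ^ 2 ∣ P * M3 := by
    refine dvd_trans h3 ⟨D1 * D2, by rw [hP]; ring⟩
  have a0 : G ^ 2 ∣ P * G ^ 2 := Dvd.intro_left _ rfl
  have a4 : G ^ 2 ∣ P * Nat.gcd (Nat.gcd (G ^ 2) M1) (Nat.gcd M2 M3) := by
    rw [← Nat.gcd_mul_left, ← Nat.gcd_mul_left, ← Nat.gcd_mul_left]
    exact Nat.dvd_gcd (Nat.dvd_gcd a0 a1) (Nat.dvd_gcd a2 a3)
  have a5 : Nat.gcd (Nat.gcd (G ^ 2) M1) (Nat.gcd M2 M3) ∣ K ^ 2 := by
    set m := Nat.gcd M1 (Nat.gcd M2 M3) with hm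
    have e1 : Nat.gcd (Nat.gcd (G ^ 2) M1) (Nat.gcd M2 M3) = Nat.gcd m (G ^ 2) := by
      rw [Nat.gcd_assoc, ← hm, Nat.gcd_comm]
    have e2 : Nat.gcd (Nat.gcd G M1) (Nat.gcd M2 M3) = Nat.gcd m G := by
      rw [Nat.gcd_assoc, ← hm, Nat.gcd_comm]
    rw [e1]
    rw [e2] at hK
    exact dvd_trans (gcd_pow_dvd _ _ _) (pow_dvd_pow_of_dvd hK 2)
  have a6 : G ^ 2 ∣ P * K ^ 2 := dvd_trans a4 (Nat.mul_dvd_mul_left P a5)
  have := Nat.le_of_dvd (by positivity) a6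
  linarith

end Pool.Agent.Helper365
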