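import Mathlib
import Pool.Agent.Helper365.Gap2

set_option autoImplicit false

open WeierstrassCurve Height

namespace Pool.Agent.Helper365

/-- six squares in an arithmetic progression with offsets `0,t1,...,t5` times `E`. -/
structure Sx (t1 t2 t3 t4 t5 : ℤ) (δ : ℕ) where
  z0 : ℤ
  z1 : ℤ
  z2 : ℤ
  z3 : ℤ
  z4 : ℤ
  z5 : ℤ
  E : ℤ
  p0 : 0 < z0
  p2 : 0 < z2
  pE : 0 < E
  h1 : z1 ^ 2 = z0 ^ 2 + t1 * E
  h2 : z2 ^ 2 = z0 ^ 2 + t2 * E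
  h3 : z3 ^ 2 = z0 ^ 2 + t3 * E
  h4 : z4 ^ 2 = z0 ^ 2 + t4 * E
  h5 : z5 ^ 2 = z0 ^ 2 + t5 * E
  hg : Nat.gcd E.natAbs (z0.natAbs ^ 2) ∣ δ

lemma ht_pnt_le {α β γ : ℤ} (hα : α ≠ 0) (hβ : β ≠ 0) (hγ : γ ≠ 0) (hαβ : α ≠ β) (hαγ : α ≠ γ)
    (hβγ : β ≠ γ) {za zb zc zd E : ℤ} (hza : za ≠ 0) (hb : zb ^ 2 = za ^ 2 + α * E)
    (hc : zc ^ 2 = za ^ 2 + β * E) (hd : zd ^ 2 = za ^ 2 + γ * E) (hE : 0 < E) {R : ℝ}
    (hR1 : (E : ℝ) ≤ R) (hR2 : (za : ℝ) ^ 2 ≤ R) :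
    ht (pnt hα hβ hγ hαβ hαγ hβγ hza hb hc hd) ≤ Real.log |((α * β * γ : ℤ) : ℝ)| + Real.log R := by
  have hc0 : α * β * γ ≠ 0 := mul_ne_zero (mul_ne_zero hα hβ) hγ
  have hc1 : (1 : ℝ) ≤ |((α * β * γ : ℤ) : ℝ)| := by
    have : (1 : ℤ) ≤ |α * β * γ| := Int.one_le_abs hc0
    exact_mod_cast this
  have hR0 : 0 < R := lt_of_lt_of_le (by exact_mod_cast hE) hR1
  rw [ht, pnt, Affine.Point.xRep_some, ← logHeight₁_eq_logHeight, Rat.logHeight₁_eq_log_max,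
    ← Real.log_mul (by positivity) (by positivity)]
  set x : ℚ := ((α * β * γ * E : ℤ) / (za : ℚ) ^ 2) with hx
  have hxd : x = Rat.divInt (α * β * γ * E) (za ^ 2) := by
    rw [hx, Rat.divInt_eq_div]; push_cast; rfl
  have hza2 : za ^ 2 ≠ 0 := by positivity
  have hnum : x.num ∣ α * β * γ * E := by rw [hxd]; exact Rat.num_dvd _ hza2
  have hden : (x.den : ℤ) ∣ za ^ 2 := by rw [hxd]; exact Rat.den_dvd _ _
  apply Real.log_le_log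
  · exact_mod_cast lt_of_lt_of_le x.den_pos (le_max_right _ _)
  · rw [Nat.cast_max]
    apply max_le
    · have h1 : x.num.natAbs ≤ (α * β * γ * E).natAbs :=
        Nat.le_of_dvd (Int.natAbs_pos.mpr (mul_ne_zero hc0 hE.ne')) (Int.natAbs_dvd_natAbs.mpr hnum)
      have h2 : (x.num.natAbs : ℝ) ≤ ((α * β * γ * E).natAbs : ℝ) := by exact_mod_cast h1
      refine le_trans h2 ?_
      rw [Nat.cast_natAbs, abs_mul, Int.cast_mul, Int.cast_abs, Int.cast_abs]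
      have h3 : |(E : ℝ)| ≤ R := by rw [abs_of_pos (by exact_mod_cast hE)]; exact hR1
      exact mul_le_mul_of_nonneg_left h3 (abs_nonneg _)
    · have h1 : (x.den : ℤ) ≤ za ^ 2 := Int.le_of_dvd (by positivity) hden
      have h2 : (x.den : ℝ) ≤ (za : ℝ) ^ 2 := by exact_mod_cast h1
      calc (x.den : ℝ) ≤ R := le_trans h2 hR2
        _ ≤ |((α * β * γ : ℤ) : ℝ)| * R := le_mul_of_one_le_left hR0.le hc1

theorem dio {t1 t2 t3 t4 t5 : ℤ} (h01 : 0 < t1) (h12 : t1 < t2) (h23 : t2 < t3) (h34 : t3 < t4)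
    (h45 : t4 < t5) {δ : ℕ} (hδ : 0 < δ) :
    ∃ (V : ℕ) (H0 : ℝ), ∀ (s : Fin V → Sx t1 t2 t3 t4 t5 δ) (H : ℝ), H0 ≤ H →
      (∀ w w', w ≠ w' → (s w).E * (s w').z0 ^ 2 - (s w').E * (s w).z0 ^ 2 ≠ 0) →
      (∀ w w', w ≠ w' → H ≤ Real.log (Nat.gcd (s w).E.natAbs (s w').E.natAbs)) →
      (∀ w, ∃ R : ℝ, ((s w).E : ℝ) ≤ R ∧ ((s w).z0 : ℝ) ^ 2 ≤ R ∧ Real.log R ≤ 7 * H) → False := by
  -- distinctness facts
  have a1 : t1 ≠ 0 := by omega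
  have a2 : t2 ≠ 0 := by omega
  have a3 : t3 ≠ 0 := by omega
  have a4 : t4 ≠ 0 := by omega
  have a5 : t5 ≠ 0 := by omega
  have b12 : t1 ≠ t2 := by omega
  have b13 : t1 ≠ t3 := by omega
  have b23 : t2 ≠ t3 := by omega
  have b14 : t1 ≠ t4 := by omega
  have b15 : t1 ≠ t5 := by omega
  have b45 : t4 ≠ t5 := by omega
  have g3 : t3 - t2 ≠ 0 := by omega
  have g4 : t4 - t2 ≠ 0 := by omega
  have g5 : t5 - t2 ≠ 0 := by omega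
  have g34 : t3 - t2 ≠ t4 - t2 := by omega
  have g35 : t3 - t2 ≠ t5 - t2 := by omega
  have g45 : t4 - t2 ≠ t5 - t2 := by omega
  obtain ⟨u1, u2, u3⟩ := ne_of_abc a1 a2 a3 b12 b13 b23
  obtain ⟨v1, v2, v3⟩ := ne_of_abc a1 a4 a5 b14 b15 b45
  obtain ⟨w1, w2, w3⟩ := ne_of_abc g3 g4 g5 g34 g35 g45
  obtain ⟨c1, hc1, F1⟩ := one_curve u1 u2 u3
  obtain ⟨c2, hc2, F2⟩ := one_curve v1 v2 v3
  obtain ⟨c3, hc3, F3⟩ := one_curve w1 w2 w3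
  set c : ℝ := c1 + c2 + c3 + 1 with hc
  have hcpos : 0 < c := by positivity
  obtain ⟨N1, f1, F1⟩ := F1 (32 * c)
  obtain ⟨N2, f2, F2⟩ := F2 (32 * c)
  obtain ⟨N3, f3, F3⟩ := F3 (32 * c)
  set K : ℕ := 16 * δ ^ 12 with hK
  have hKpos : 0 < K := by positivity
  set L1 : ℝ := Real.log |((t1 * t2 * t3 : ℤ) : ℝ)| with hL1
  set L2 : ℝ := Real.log |((t1 * t4 * t5 : ℤ) : ℝ)| with hL2
  set L3 : ℝ := Real.log |(((t3 - t2) * (t4 - t2) * (t5 - t2) : ℤ) : ℝ)| + Real.log (1 + (t2 : ℝ)) with hL3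
  refine ⟨N1 * N2 * N3 + 1, |L1| + |L2| + |L3| + c + 2 * Real.log K + 1, ?_⟩
  intro s H hH hne hgcd hR
  have hlogK : 0 ≤ Real.log K := Real.log_natCast_nonneg K
  have hHc : c ≤ H := by
    have := abs_nonneg L1
    have := abs_nonneg L2
    have := abs_nonneg L3
    linarith
  have hH1 : 1 ≤ H / c := by rw [le_div_iff₀ hcpos]; linarith
  obtain ⟨n, hn1, hn2⟩ := exists_nat_pow_near hH1 (by norm_num : (1 : ℝ) < 4)
  rw [le_div_iff₀ hcpos] at hn1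
  rw [div_lt_iff₀ hcpos, pow_succ] at hn2
  have hHn : 8 * H ≤ 32 * c * 4 ^ n := by linarith
  -- the three points
  let P1 : Fin (N1 * N2 * N3 + 1) → Pt ((t2 * t3 : ℤ) : ℚ) ((t3 * t1 : ℤ) : ℚ) ((t1 * t2 : ℤ) : ℚ) := fun w =>
    pnt a1 a2 a3 b12 b13 b23 (s w).p0.ne' (s w).h1 (s w).h2 (s w).h3
  let P2 : Fin (N1 * N2 * N3 + 1) → Pt ((t4 * t5 : ℤ) : ℚ) ((t5 * t1 : ℤ) : ℚ) ((t1 * t4 : ℤ) : ℚ) := fun w =>
    pnt a1 a4 a5 b14 b15 b45 (s w).p0.ne' (s w).h1 (s w).h4 (s w).h5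
  have k3 : ∀ w, (s w).z3 ^ 2 = (s w).z2 ^ 2 + (t3 - t2) * (s w).E := fun w => by
    rw [(s w).h3, (s w).h2]; ring
  have k4 : ∀ w, (s w).z4 ^ 2 = (s w).z2 ^ 2 + (t4 - t2) * (s w).E := fun w => by
    rw [(s w).h4, (s w).h2]; ring
  have k5 : ∀ w, (s w).z5 ^ 2 = (s w).z2 ^ 2 + (t5 - t2) * (s w).E := fun w => by
    rw [(s w).h5, (s w).h2]; ring
  let P3 : Fin (N1 * N2 * N3 + 1) → Pt (((t4 - t2) * (t5 - t2) : ℤ) : ℚ) (((t5 - t2) * (t3 - t2) : ℤ) : ℚ)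
      (((t3 - t2) * (t4 - t2) : ℤ) : ℚ) := fun w =>
    pnt g3 g4 g5 g34 g35 g45 (s w).p2.ne' (k3 w) (k4 w) (k5 w)
  have hP1 : ∀ w, ht (P1 w) ≤ 32 * c * 4 ^ n := by
    intro w
    obtain ⟨R, r1, r2, r3⟩ := hR w
    have := ht_pnt_le a1 a2 a3 b12 b13 b23 (s w).p0.ne' (s w).h1 (s w).h2 (s w).h3 (s w).pE r1 r2
    have h5 := le_abs_self L1
    have := abs_nonneg L2
    have := abs_nonneg L3
    simp only [P1]
    linarith
  have hP2 : ∀ w, ht (P2 w) ≤ 32 * c * 4 ^ n := by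
    intro w
    obtain ⟨R, r1, r2, r3⟩ := hR w
    have := ht_pnt_le a1 a4 a5 b14 b15 b45 (s w).p0.ne' (s w).h1 (s w).h4 (s w).h5 (s w).pE r1 r2
    have h5 := le_abs_self L2
    have := abs_nonneg L1
    have := abs_nonneg L3
    simp only [P2]
    linarith
  have hP3 : ∀ w, ht (P3 w) ≤ 32 * c * 4 ^ n := by
    intro w
    obtain ⟨R, r1, r2, r3⟩ := hR w
    have ht2 : (0 : ℝ) < t2 := by
      have : (0 : ℤ) < t2 := by omega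
      exact_mod_cast this
    have hR0 : 0 < R := lt_of_lt_of_le (by exact_mod_cast (s w).pE) r1
    have r1' : ((s w).E : ℝ) ≤ (1 + t2) * R := by nlinarith
    have r2' : ((s w).z2 : ℝ) ^ 2 ≤ (1 + t2) * R := by
      have h2 : ((s w).z2 : ℝ) ^ 2 = (s w).z0 ^ 2 + t2 * (s w).E := by exact_mod_cast (s w).h2
      rw [h2]
      have : (t2 : ℝ) * (s w).E ≤ t2 * R := mul_le_mul_of_nonneg_left r1 ht2.le
      linarith
    have := ht_pnt_le g3 g4 g5 g34 g35 g45 (s w).p2.ne' (k3 w) (k4 w) (k5 w) (s w).pE r1' r2'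
    rw [Real.log_mul (by positivity) (by positivity)] at this
    have h5 := le_abs_self L3
    have := abs_nonneg L1
    have := abs_nonneg L2
    simp only [P3]
    linarith
  -- pigeonhole
  obtain ⟨w, w', hww, hfe⟩ := Fintype.exists_ne_map_eq_of_card_lt
    (fun w : Fin (N1 * N2 * N3 + 1) => ((f1 n (P1 w), f2 n (P2 w)), f3 n (P3 w))) (by simp)
  simp only [Prod.mk.injEq] at hfe
  obtain ⟨⟨e1, e2⟩, e3⟩ := hfe
  have q1 := F1 n _ _ (hP1 w) (hP1 w') e1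
  have q2 := F2 n _ _ (hP2 w) (hP2 w') e2
  have q3 := F3 n _ _ (hP3 w) (hP3 w') e3
  -- gap
  have hΘ := hne w w' hww
  have hΘ3 : (s w).E * (s w').z2 ^ 2 - (s w').E * (s w).z2 ^ 2 ≠ 0 := by
    rw [(s w).h2, (s w').h2]
    intro h
    apply hΘ
    linear_combination h
  have hΘeq : (s w).E * (s w').z2 ^ 2 - (s w').E * (s w).z2 ^ 2 = (s w).E * (s w').z0 ^ 2 - (s w').E * (s w).z0 ^ 2 := by
    rw [(s w).h2, (s w').h2]; ring
  obtain ⟨D1, hD1, hd1, hl1⟩ := gap_one a1 a2 a3 b12 b13 b23 (s w).p0.ne' (s w).h1 (s w).h2 (s w).h3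
    (s w').p0.ne' (s w').h1 (s w').h2 (s w').h3 hΘ
  obtain ⟨D2, hD2, hd2, hl2⟩ := gap_one a1 a4 a5 b14 b15 b45 (s w).p0.ne' (s w).h1 (s w).h4 (s w).h5
    (s w').p0.ne' (s w').h1 (s w').h4 (s w').h5 hΘ
  obtain ⟨D3, hD3, hd3, hl3⟩ := gap_one g3 g4 g5 g34 g35 g45 (s w).p2.ne' (k3 w) (k4 w) (k5 w)
    (s w').p2.ne' (k3 w') (k4 w') (k5 w') hΘ3
  set G : ℕ := Nat.gcd (s w).E.natAbs (s w').E.natAbs with hG
  have hGpos : 0 < G := Nat.gcd_pos_of_pos_left _ (Int.natAbs_pos.mpr (s w).pE.ne')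
  have hGE : (G : ℤ) ∣ (s w).E := Int.natCast_dvd.mpr (Nat.gcd_dvd_left _ _)
  have hGE' : (G : ℤ) ∣ (s w').E := Int.natCast_dvd.mpr (Nat.gcd_dvd_right _ _)
  have hGΘ : (G : ℤ) ∣ (s w).E * (s w').z0 ^ 2 - (s w').E * (s w).z0 ^ 2 :=
    dvd_sub (Dvd.dvd.mul_right hGE _) (Dvd.dvd.mul_right hGE' _)
  have hG2 : ∀ {D : ℕ} {M : ℤ}, ((s w).E * (s w').z0 ^ 2 - (s w').E * (s w).z0 ^ 2) ^ 2 ∣ (D : ℤ) * M →
      G ^ 2 ∣ D * M.natAbs := by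
    intro D M h
    have h1 : ((G : ℤ)) ^ 2 ∣ (D : ℤ) * M := dvd_trans (pow_dvd_pow_of_dvd hGΘ 2) h
    have h2 := Int.natAbs_dvd_natAbs.mpr h1
    simpa [Int.natAbs_mul, Int.natAbs_pow] using h2
  rw [hΘeq] at hd3
  have r1 := hG2 hd1
  have r2 := hG2 hd2
  have r3 := hG2 hd3
  have hbound := comb_den hD1 hD2 hD3 r1 r2 r3 hKpos (by
    set I := Nat.gcd (Nat.gcd G (MS t1 t2 t3 (s w).z0 (s w).z1 (s w).z2 (s w).z3 (s w).E (s w').z0 (s w').z1 (s w').z2 (s w').z3 (s w').E).natAbs)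
      (Nat.gcd (MS t1 t4 t5 (s w).z0 (s w).z1 (s w).z4 (s w).z5 (s w).E (s w').z0 (s w').z1 (s w').z4 (s w').z5 (s w').E).natAbs
        (MS (t3 - t2) (t4 - t2) (t5 - t2) (s w).z2 (s w).z3 (s w).z4 (s w).z5 (s w).E (s w').z2 (s w').z3 (s w').z4 (s w').z5 (s w').E).natAbs) with hI
    have i1 : I ∣ G := dvd_trans (Nat.gcd_dvd_left _ _) (Nat.gcd_dvd_left _ _)
    have i2 := dvd_trans (Nat.gcd_dvd_left (Nat.gcd G (MS t1 t2 t3 (s w).z0 (s w).z1 (s w).z2 (s w).z3 (s w).E (s w').z0 (s w').z1 (s w').z2 (s w').z3 (s w').E).natAbs)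
      (Nat.gcd (MS t1 t4 t5 (s w).z0 (s w).z1 (s w).z4 (s w).z5 (s w).E (s w').z0 (s w').z1 (s w').z4 (s w').z5 (s w').E).natAbs
        (MS (t3 - t2) (t4 - t2) (t5 - t2) (s w).z2 (s w).z3 (s w).z4 (s w).z5 (s w).E (s w').z2 (s w').z3 (s w').z4 (s w').z5 (s w').E).natAbs)) (Nat.gcd_dvd_right _ _)
    have i3 := dvd_trans (Nat.gcd_dvd_right (Nat.gcd G (MS t1 t2 t3 (s w).z0 (s w).z1 (s w).z2 (s w).z3 (s w).E (s w').z0 (s w').z1 (s w').z2 (s w').z3 (s w').E).natAbs)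
      (Nat.gcd (MS t1 t4 t5 (s w).z0 (s w).z1 (s w).z4 (s w).z5 (s w).E (s w').z0 (s w').z1 (s w').z4 (s w').z5 (s w').E).natAbs
        (MS (t3 - t2) (t4 - t2) (t5 - t2) (s w).z2 (s w).z3 (s w).z4 (s w).z5 (s w).E (s w').z2 (s w').z3 (s w').z4 (s w').z5 (s w').E).natAbs)) (Nat.gcd_dvd_left _ _)
    have i4 := dvd_trans (Nat.gcd_dvd_right (Nat.gcd G (MS t1 t2 t3 (s w).z0 (s w).z1 (s w).z2 (s w).z3 (s w).E (s w').z0 (s w').z1 (s w').z2 (s w').z3 (s w').E).natAbs)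
      (Nat.gcd (MS t1 t4 t5 (s w).z0 (s w).z1 (s w).z4 (s w).z5 (s w).E (s w').z0 (s w').z1 (s w').z4 (s w').z5 (s w').E).natAbs
        (MS (t3 - t2) (t4 - t2) (t5 - t2) (s w).z2 (s w).z3 (s w).z4 (s w).z5 (s w).E (s w').z2 (s w').z3 (s w').z4 (s w').z5 (s w').E).natAbs)) (Nat.gcd_dvd_right _ _)
    rw [← hI] at i2 i3 i4
    rw [hK]
    exact ideal_bound (s w).h1 (s w).h2 (s w).h3 (s w).h4 (s w).h5 (s w').h1 (s w').h2 (s w').h3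
      (s w').h4 (s w').h5 (s w).hg (s w').hg
      (dvd_trans (Int.natCast_dvd_natCast.mpr i1) hGE) (dvd_trans (Int.natCast_dvd_natCast.mpr i1) hGE')
      (Int.natCast_dvd.mpr i2) (Int.natCast_dvd.mpr i3) (Int.natCast_dvd.mpr i4))
  have hbR : ((G : ℝ)) ^ 2 ≤ (K : ℝ) ^ 2 * ((D1 : ℝ) * D2 * D3) := by exact_mod_cast hbound
  have hlog := Real.log_le_log (by positivity) hbR
  have hD1r : (0 : ℝ) < D1 := by exact_mod_cast hD1
  have hD2r : (0 : ℝ) < D2 := by exact_mod_cast hD2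
  have hD3r : (0 : ℝ) < D3 := by exact_mod_cast hD3
  have hKr : (0 : ℝ) < K := by exact_mod_cast hKpos
  rw [Real.log_pow, Real.log_mul (by positivity) (by positivity), Real.log_mul (by positivity) (by positivity),
    Real.log_mul (by positivity) (by positivity), Real.log_pow] at hlog
  push_cast at hlog
  have hHG := hgcd w w' hww
  have z1 : Real.log D1 ≤ c1 * 4 ^ n := le_trans hl1 q1
  have z2 : Real.log D2 ≤ c2 * 4 ^ n := le_trans hl2 q2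
  have z3 : Real.log D3 ≤ c3 * 4 ^ n := le_trans hl3 q3
  have hfin : (c1 + c2 + c3) * 4 ^ n ≤ H := by
    have h4 : (0 : ℝ) < 4 ^ n := by positivity
    rw [hc] at hn1
    nlinarith
  have := abs_nonneg L1
  have := abs_nonneg L2
  have := abs_nonneg L3
  nlinarith

end Pool.Agent.Helper365
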