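import Mathlib
import Pool.Agent.Helper365.Dio

set_option autoImplicit false

namespace Pool.Agent.Helper365

lemma sx_bound {t1 t2 t3 t4 t5 : ℤ} {δ : ℕ} (h01 : 0 < t1) (s : Sx t1 t2 t3 t4 t5 δ) :
    s.z0 ≤ t1 * s.E := by
  have h1 := s.h1
  have h2 : 0 < t1 * s.E := mul_pos h01 s.pE
  have h3 : s.z0 < |s.z1| := by
    apply lt_of_pow_lt_pow_left₀ 2 (abs_nonneg _)
    rw [sq_abs]; linarith
  have h4 : (s.z0 + 1) ^ 2 ≤ |s.z1| ^ 2 := by
    apply pow_le_pow_left₀ (by linarith [s.p0])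
    linarith
  rw [sq_abs] at h4
  nlinarith [s.p0]

lemma case1 {t1 t2 t3 t4 t5 : ℤ} (h01 : 0 < t1) (h12 : t1 < t2) (h23 : t2 < t3) (h34 : t3 < t4)
    (h45 : t4 < t5) {δ : ℕ} (hδ : 0 < δ) :
    ∃ (V Y : ℕ), ∀ (s : Fin V → Sx t1 t2 t3 t4 t5 δ) (E : ℤ), (Y : ℤ) ≤ E → (∀ w, (s w).E = E) →
      (∀ w w', w ≠ w' → (s w).z0 ≠ (s w').z0) → False := by
  obtain ⟨V, H0, hdio⟩ := dio h01 h12 h23 h34 h45 hδ
  refine ⟨V, max (Nat.ceil (Real.exp H0)) t1.natAbs + 1, ?_⟩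
  intro s E hY hE hne
  have ht1 : (t1.natAbs : ℤ) = t1 := Int.natAbs_of_nonneg h01.le
  have hEpos : 0 < E := by
    have : (0 : ℤ) < ((max (Nat.ceil (Real.exp H0)) t1.natAbs + 1 : ℕ) : ℤ) := by positivity
    linarith
  have hEr : (0 : ℝ) < E := by exact_mod_cast hEpos
  have hE1 : Real.exp H0 ≤ E := by
    have h1 : Real.exp H0 ≤ (Nat.ceil (Real.exp H0) : ℝ) := Nat.le_ceil _
    have h2 : ((Nat.ceil (Real.exp H0) : ℕ) : ℤ) ≤ E := by
      have : ((Nat.ceil (Real.exp H0) : ℕ) : ℤ) ≤ ((max (Nat.ceil (Real.exp H0)) t1.natAbs + 1 : ℕ) : ℤ) := by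
        have := le_max_left (Nat.ceil (Real.exp H0)) t1.natAbs
        exact_mod_cast Nat.le_succ_of_le this
      linarith
    have h3 : (Nat.ceil (Real.exp H0) : ℝ) ≤ E := by exact_mod_cast h2
    linarith
  have hE2 : t1 ≤ E := by
    have : (t1.natAbs : ℤ) ≤ ((max (Nat.ceil (Real.exp H0)) t1.natAbs + 1 : ℕ) : ℤ) := by
      have := le_max_right (Nat.ceil (Real.exp H0)) t1.natAbs
      exact_mod_cast Nat.le_succ_of_le this
    rw [ht1] at this
    linarith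
  have hE2r : (t1 : ℝ) ≤ E := by exact_mod_cast hE2
  have ht1r : (1 : ℝ) ≤ t1 := by
    have : (1 : ℤ) ≤ t1 := h01
    exact_mod_cast this
  have hlogE : H0 ≤ Real.log E := by
    rw [Real.le_log_iff_exp_le hEr]; exact hE1
  apply hdio s (Real.log E) hlogE
  · intro w w' hww
    rw [hE w, hE w', ← mul_sub]
    apply mul_ne_zero hEpos.ne'
    intro h
    apply hne w w' hww
    have h2 : (s w').z0 ^ 2 = (s w).z0 ^ 2 := by linarith
    have h3 := (sq_eq_sq₀ (s w').p0.le (s w).p0.le).mp h2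
    exact h3.symm
  · intro w w' hww
    rw [hE w, hE w', Nat.gcd_self]
    rw [Nat.cast_natAbs, abs_of_pos hEpos]
  · intro w
    refine ⟨((t1 : ℝ) * E) ^ 2, ?_, ?_, ?_⟩
    · rw [hE w]
      have hE1' : (1 : ℝ) ≤ E := by linarith
      nlinarith [mul_le_mul ht1r hE1' (by norm_num) (by linarith : (0 : ℝ) ≤ t1)]
    · have h1 := sx_bound h01 (s w)
      rw [hE w] at h1
      have h2 : ((s w).z0 : ℝ) ≤ t1 * E := by exact_mod_cast h1
      have h3 : (0 : ℝ) ≤ (s w).z0 := by exact_mod_cast (s w).p0.le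
      exact pow_le_pow_left₀ h3 h2 2
    · rw [Real.log_pow, Real.log_mul (by positivity) (by positivity)]
      have h1 : Real.log t1 ≤ Real.log E := Real.log_le_log (by linarith) hE2r
      have h2 : 0 ≤ Real.log E := Real.log_nonneg (by linarith)
      push_cast
      linarith

lemma gcd3 {a b c D K : ℕ} (ha : a ∣ D) (hb : b ∣ D) (hc : c ∣ D) (hD : 0 < D)
    (hab : Nat.gcd a b ≤ K) (hac : Nat.gcd a c ≤ K) (hbc : Nat.gcd b c ≤ K) :
    a * b * c ≤ K ^ 3 * D := by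
  have hapos : 0 < a := Nat.pos_of_dvd_of_pos ha hD
  have hbpos : 0 < b := Nat.pos_of_dvd_of_pos hb hD
  have hcpos : 0 < c := Nat.pos_of_dvd_of_pos hc hD
  have h1 : a * b = Nat.gcd a b * Nat.lcm a b := (Nat.gcd_mul_lcm a b).symm
  have h2 : Nat.lcm a b * c = Nat.gcd (Nat.lcm a b) c * Nat.lcm (Nat.lcm a b) c := (Nat.gcd_mul_lcm _ _).symm
  have h3 : Nat.lcm (Nat.lcm a b) c ≤ D := Nat.le_of_dvd hD (Nat.lcm_dvd (Nat.lcm_dvd ha hb) hc)
  have h4 : Nat.gcd (Nat.lcm a b) c ≤ Nat.gcd a c * Nat.gcd b c := by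
    apply Nat.le_of_dvd
    · exact Nat.mul_pos (Nat.gcd_pos_of_pos_left _ hapos) (Nat.gcd_pos_of_pos_left _ hbpos)
    · have h5 : Nat.lcm a b ∣ a * b := Nat.lcm_dvd (Dvd.intro _ rfl) (Dvd.intro_left _ rfl)
      have h6 : Nat.gcd (Nat.lcm a b) c ∣ Nat.gcd (a * b) c := Nat.gcd_dvd_gcd_of_dvd_left _ h5
      refine dvd_trans h6 ?_
      rw [Nat.gcd_comm (a * b) c, Nat.gcd_comm a c, Nat.gcd_comm b c]
      exact Nat.gcd_mul_right_dvd_mul_gcd c a b
  calc a * b * c = Nat.gcd a b * (Nat.lcm a b * c) := by rw [h1]; ring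
    _ = Nat.gcd a b * (Nat.gcd (Nat.lcm a b) c * Nat.lcm (Nat.lcm a b) c) := by rw [h2]
    _ ≤ K * ((K * K) * D) := by
        apply Nat.mul_le_mul hab
        apply Nat.mul_le_mul _ h3
        exact le_trans h4 (Nat.mul_le_mul hac hbc)
    _ = K ^ 3 * D := by ring

lemma case2 {t1 t2 t3 t4 t5 : ℤ} (h01 : 0 < t1) (h12 : t1 < t2) (h23 : t2 < t3) (h34 : t3 < t4)
    (h45 : t4 < t5) {δ : ℕ} (hδ : 0 < δ) :
    ∃ V : ℕ, ∀ K : ℕ, ∃ Y : ℕ, ∀ (T : Finset ℕ), V + 2 ≤ T.card →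
      ∀ (s : ℕ → Sx t1 t2 t3 t4 t5 δ) (b : ℕ → ℕ) (D : ℕ), Y ≤ D →
      (∀ w ∈ T, (s w).E * (b w : ℤ) ^ 2 = D) →
      (∀ w ∈ T, ∀ w' ∈ T, w ≠ w' → (s w).z0 * b w ≠ (s w').z0 * b w') →
      (∀ w ∈ T, ∀ w' ∈ T, w ≠ w' → Nat.gcd (b w ^ 2) (b w' ^ 2) ≤ K) →
      (∀ w ∈ T, (s w).z0 * b w ≤ t1 * D) → False := by
  classical
  obtain ⟨V, H0, hdio⟩ := dio h01 h12 h23 h34 h45 hδ
  refine ⟨V, fun K0 => ?_⟩
  -- work with K ≥ 1
  set K : ℕ := K0 + 1 with hK
  have hKpos : 0 < K := by omega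
  refine ⟨Nat.ceil (Real.exp (3 * |H0| + 6 * Real.log t1 + 42 * Real.log K)) + 1, ?_⟩
  intro T hT s b D hY hE hne hgcd hz
  have hgcd : ∀ w ∈ T, ∀ w' ∈ T, w ≠ w' → Nat.gcd (b w ^ 2) (b w' ^ 2) ≤ K := fun w hw w' hw' h =>
    le_trans (hgcd w hw w' hw' h) (by omega)
  have hDpos : 0 < D := by omega
  have hDr : (0 : ℝ) < D := by exact_mod_cast hDpos
  have hKr : (0 : ℝ) < K := by exact_mod_cast hKpos
  have ht1r : (1 : ℝ) ≤ t1 := by
    have : (1 : ℤ) ≤ t1 := h01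
    exact_mod_cast this
  have hlogt1 : 0 ≤ Real.log t1 := Real.log_nonneg ht1r
  have hlogK : 0 ≤ Real.log K := Real.log_natCast_nonneg K
  have hlogD : 3 * |H0| + 6 * Real.log t1 + 42 * Real.log K ≤ Real.log D := by
    rw [Real.le_log_iff_exp_le hDr]
    have h1 := Nat.le_ceil (Real.exp (3 * |H0| + 6 * Real.log t1 + 42 * Real.log K))
    have h2 : ((Nat.ceil (Real.exp (3 * |H0| + 6 * Real.log t1 + 42 * Real.log K)) : ℕ) : ℝ) ≤ D := by
      exact_mod_cast (by omega : Nat.ceil (Real.exp (3 * |H0| + 6 * Real.log t1 + 42 * Real.log K)) ≤ D)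
    linarith
  have hbD : ∀ w ∈ T, b w ^ 2 ∣ D := by
    intro w hw
    have := hE w hw
    have h2 : ((b w ^ 2 : ℕ) : ℤ) ∣ (D : ℤ) := ⟨(s w).E, by push_cast; rw [← this]; ring⟩
    exact_mod_cast h2
  have hbpos : ∀ w ∈ T, 0 < b w := by
    intro w hw
    rcases Nat.eq_zero_or_pos (b w) with h | h
    · exfalso
      have := hE w hw
      rw [h] at this
      simp at this
      omega
    · exact h
  set bad := T.filter (fun w => D * K ^ 3 < (b w ^ 2) ^ 3) with hbad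
  have hbadcard : bad.card ≤ 2 := by
    by_contra hcon
    push Not at hcon
    obtain ⟨u, v, w, hu, hv, hw, huv, huw, hvw⟩ := Finset.two_lt_card_iff.mp hcon
    rw [hbad, Finset.mem_filter] at hu hv hw
    have h1 := gcd3 (hbD u hu.1) (hbD v hv.1) (hbD w hw.1) hDpos
      (hgcd u hu.1 v hv.1 huv) (hgcd u hu.1 w hw.1 huw) (hgcd v hv.1 w hw.1 hvw)
    have h2 : (D * K ^ 3) * (D * K ^ 3) * (D * K ^ 3) < (b u ^ 2) ^ 3 * (b v ^ 2) ^ 3 * (b w ^ 2) ^ 3 := by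
      apply Nat.mul_lt_mul'' _ hw.2
      exact Nat.mul_lt_mul'' hu.2 hv.2
    have h3 : (b u ^ 2) ^ 3 * (b v ^ 2) ^ 3 * (b w ^ 2) ^ 3 ≤ (K ^ 3 * D) ^ 3 := by
      rw [← mul_pow, ← mul_pow]
      exact Nat.pow_le_pow_left h1 3
    have h4 : (D * K ^ 3) * (D * K ^ 3) * (D * K ^ 3) = (K ^ 3 * D) ^ 3 := by ring
    omega
  have hgoodcard : V ≤ (T \ bad).card := by
    have := Finset.le_card_sdiff bad T
    omega
  obtain ⟨T', hT', hT'c⟩ := Finset.exists_subset_card_eq hgoodcard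
  let g : Fin V → ℕ := fun j => (T'.equivFin.symm (Fin.cast hT'c.symm j)).1
  have hg : ∀ j, g j ∈ T' := fun j => (T'.equivFin.symm (Fin.cast hT'c.symm j)).2
  have hginj : ∀ j j', j ≠ j' → g j ≠ g j' := by
    intro j j' hjj h
    apply hjj
    have h1 : T'.equivFin.symm (Fin.cast hT'c.symm j) = T'.equivFin.symm (Fin.cast hT'c.symm j') := Subtype.ext h
    have h2 := T'.equivFin.symm.injective h1
    exact Fin.cast_injective _ h2
  have hgT : ∀ j, g j ∈ T := fun j => (Finset.mem_sdiff.mp (hT' (hg j))).1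
  have hgood : ∀ j, (b (g j) ^ 2) ^ 3 ≤ D * K ^ 3 := by
    intro j
    have h1 := (Finset.mem_sdiff.mp (hT' (hg j))).2
    by_contra hcon
    push Not at hcon
    apply h1
    rw [hbad, Finset.mem_filter]
    exact ⟨hgT j, hcon⟩
  have hH0 : H0 ≤ Real.log D / 3 - 2 * Real.log K := by
    have := le_abs_self H0
    have := abs_nonneg H0
    linarith
  apply hdio (fun j => s (g j)) (Real.log D / 3 - 2 * Real.log K) hH0
  · intro j j' hjj h
    have h1 := hne (g j) (hgT j) (g j') (hgT j') (hginj j j' hjj)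
    have h2 := hE (g j) (hgT j)
    have h3 := hE (g j') (hgT j')
    have hb1 : (0 : ℤ) < b (g j) := by exact_mod_cast hbpos _ (hgT j)
    have hb2 : (0 : ℤ) < b (g j') := by exact_mod_cast hbpos _ (hgT j')
    have hDz : (0 : ℤ) < D := by exact_mod_cast hDpos
    apply h1
    -- multiply h by b^2 b'^2
    have h4 : (D : ℤ) * (((s (g j')).z0 * b (g j')) ^ 2 - ((s (g j)).z0 * b (g j)) ^ 2) = 0 := by
      have h5 : ((s (g j)).E * (s (g j')).z0 ^ 2 - (s (g j')).E * (s (g j)).z0 ^ 2) * ((b (g j) : ℤ) ^ 2 * (b (g j') : ℤ) ^ 2) = 0 := by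
        rw [h]; ring
      calc (D : ℤ) * (((s (g j')).z0 * b (g j')) ^ 2 - ((s (g j)).z0 * b (g j)) ^ 2)
          = D * ((s (g j')).z0 * b (g j')) ^ 2 - D * ((s (g j)).z0 * b (g j)) ^ 2 := by ring
        _ = ((s (g j)).E * (b (g j) : ℤ) ^ 2) * ((s (g j')).z0 * b (g j')) ^ 2
            - ((s (g j')).E * (b (g j') : ℤ) ^ 2) * ((s (g j)).z0 * b (g j)) ^ 2 := by rw [h2, h3]
        _ = ((s (g j)).E * (s (g j')).z0 ^ 2 - (s (g j')).E * (s (g j)).z0 ^ 2) * ((b (g j) : ℤ) ^ 2 * (b (g j') : ℤ) ^ 2) := by ring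
        _ = 0 := h5
    rcases mul_eq_zero.mp h4 with h6 | h6
    · omega
    · have h7 : ((s (g j)).z0 * b (g j)) ^ 2 = ((s (g j')).z0 * b (g j')) ^ 2 := by linarith
      exact (sq_eq_sq₀ (mul_nonneg (s (g j)).p0.le hb1.le) (mul_nonneg (s (g j')).p0.le hb2.le)).mp h7
  · intro j j' hjj
    set u := g j with hu
    set v := g j' with hv
    have hEu := hE u (hgT j)
    have hEv := hE v (hgT j')
    have hEu' : (s u).E.natAbs * b u ^ 2 = D := by
      have := congrArg Int.natAbs hEu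
      simpa [Int.natAbs_mul, Int.natAbs_pow] using this
    have hEv' : (s v).E.natAbs * b v ^ 2 = D := by
      have := congrArg Int.natAbs hEv
      simpa [Int.natAbs_mul, Int.natAbs_pow] using this
    set G := Nat.gcd (s u).E.natAbs (s v).E.natAbs with hG
    have hGpos : 0 < G := Nat.gcd_pos_of_pos_left _ (Int.natAbs_pos.mpr (s u).pE.ne')
    have hDG : D ∣ G * (b u ^ 2 * b v ^ 2) := by
      rw [hG, ← Nat.gcd_mul_right]
      apply Nat.dvd_gcd
      · exact ⟨b v ^ 2, by rw [← hEu']; ring⟩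
      · exact ⟨b u ^ 2, by rw [← hEv']; ring⟩
    have hbu := hbpos u (hgT j)
    have hbv := hbpos v (hgT j')
    have hDle : D ≤ G * (b u ^ 2 * b v ^ 2) := Nat.le_of_dvd (by positivity) hDG
    have hcub : D ^ 3 ≤ G ^ 3 * (D * K ^ 3 * (D * K ^ 3)) := by
      calc D ^ 3 ≤ (G * (b u ^ 2 * b v ^ 2)) ^ 3 := Nat.pow_le_pow_left hDle 3
        _ = G ^ 3 * ((b u ^ 2) ^ 3 * (b v ^ 2) ^ 3) := by ring
        _ ≤ G ^ 3 * (D * K ^ 3 * (D * K ^ 3)) := by
            apply Nat.mul_le_mul_left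
            exact Nat.mul_le_mul (hgood j) (hgood j')
    have hfin : D ≤ G ^ 3 * K ^ 6 := by
      have h1 : D ^ 2 * D ≤ D ^ 2 * (G ^ 3 * K ^ 6) := by
        calc D ^ 2 * D = D ^ 3 := by ring
          _ ≤ _ := hcub
          _ = _ := by ring
      exact Nat.le_of_mul_le_mul_left h1 (by positivity)
    have hfinr : (D : ℝ) ≤ (G : ℝ) ^ 3 * (K : ℝ) ^ 6 := by exact_mod_cast hfin
    have hGr : (0 : ℝ) < G := by exact_mod_cast hGpos
    have hl := Real.log_le_log hDr hfinr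
    rw [Real.log_mul (by positivity) (by positivity), Real.log_pow, Real.log_pow] at hl
    push_cast at hl
    linarith
  · intro j
    refine ⟨((t1 : ℝ) * D) ^ 2, ?_, ?_, ?_⟩
    · have h1 := hE (g j) (hgT j)
      have hb1 : (1 : ℤ) ≤ b (g j) := by exact_mod_cast hbpos _ (hgT j)
      have h2 : (s (g j)).E ≤ D := by
        have h3 := (s (g j)).pE
        have h5 : (1 : ℤ) ≤ (b (g j) : ℤ) ^ 2 := one_le_pow₀ hb1
        calc (s (g j)).E = (s (g j)).E * 1 := (mul_one _).symm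
          _ ≤ (s (g j)).E * (b (g j) : ℤ) ^ 2 := mul_le_mul_of_nonneg_left h5 h3.le
          _ = D := h1
      have h4 : ((s (g j)).E : ℝ) ≤ D := by exact_mod_cast h2
      have hD1 : (1 : ℝ) ≤ D := by exact_mod_cast hDpos
      nlinarith [mul_le_mul ht1r hD1 (by norm_num) (by linarith : (0 : ℝ) ≤ t1)]
    · have h1 := hz (g j) (hgT j)
      have hb1 : (1 : ℤ) ≤ b (g j) := by exact_mod_cast hbpos _ (hgT j)
      have h2 : (s (g j)).z0 ≤ t1 * D := by
        have h3 := (s (g j)).p0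
        nlinarith
      have h4 : ((s (g j)).z0 : ℝ) ≤ t1 * D := by exact_mod_cast h2
      have h3 : (0 : ℝ) ≤ (s (g j)).z0 := by exact_mod_cast (s (g j)).p0.le
      exact pow_le_pow_left₀ h3 h4 2
    · rw [Real.log_pow, Real.log_mul (by positivity) (by positivity)]
      push_cast
      have := abs_nonneg H0
      linarith

end Pool.Agent.Helper365
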