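import Mathlib

set_option autoImplicit false

namespace Pool.Agent.Helper365

lemma blocks_le (e : ℕ → ℤ) (S : ℤ) (l a : ℕ) (t : ℕ)
    (h : ∀ s < t, e (a + s * l + l) - e (a + s * l) ≤ S) :
    e (a + t * l) - e a ≤ t * S := by
  induction t with
  | zero => simp
  | succ t ih =>
    have h1 := ih (fun s hs => h s (by omega))
    have h2 := h t (by omega)
    have h3 : a + (t + 1) * l = a + t * l + l := by ring
    rw [h3]
    push_cast
    linarith

lemma mono_lip (e : ℕ → ℤ) (C : ℕ) (he : ∀ i, e i ≤ e (i + 1) ∧ e (i + 1) ≤ e i + C) (a s : ℕ) :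
    e a ≤ e (a + s) ∧ e (a + s) ≤ e a + C * s := by
  induction s with
  | zero => simp
  | succ s ih =>
    have h1 := he (a + s)
    rw [← add_assoc]
    push_cast
    constructor
    · linarith [ih.1, h1.1]
    · linarith [ih.2, h1.2]

/-- near-linearity on some window -/
lemma near_linear (C N J : ℕ) (hN : 0 < N) (hJ : 0 < J) (e : ℕ → ℤ)
    (he : ∀ i, e i ≤ e (i + 1) ∧ e (i + 1) ≤ e i + C) :
    ∃ (j a : ℕ) (M : ℝ), j < J ∧ a + N ^ (j + 1) ≤ N ^ J ∧
      ∀ i, i ≤ N ^ (j + 1) → |((e (a + i) - e a : ℤ) : ℝ) - M * i| ≤ (N : ℝ) ^ (j + 1) * (C / J + C / N) := by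
  have hmax : ∀ j, ∃ a, j ≤ J → (a + N ^ j ≤ N ^ J ∧ ∀ a', a' + N ^ j ≤ N ^ J →
      e (a' + N ^ j) - e a' ≤ e (a + N ^ j) - e a) := by
    intro j
    by_cases hj : j ≤ J
    · have hpow : N ^ j ≤ N ^ J := Nat.pow_le_pow_right hN hj
      obtain ⟨a, ha, hmx⟩ := Finset.exists_max_image (Finset.range (N ^ J - N ^ j + 1))
        (fun a => e (a + N ^ j) - e a) ⟨0, by simp⟩
      refine ⟨a, fun _ => ⟨?_, ?_⟩⟩
      · have := Finset.mem_range.mp ha; omega
      · intro a' ha'
        exact hmx a' (Finset.mem_range.mpr (by omega))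
    · exact ⟨0, fun h => absurd h hj⟩
  choose a ha using hmax
  set S : ℕ → ℤ := fun j => e (a j + N ^ j) - e (a j) with hS
  set σ : ℕ → ℝ := fun j => (S j : ℝ) / (N : ℝ) ^ j with hσ
  have hNr : (0 : ℝ) < N := by exact_mod_cast hN
  have hJr : (0 : ℝ) < J := by exact_mod_cast hJ
  have hσ0 : σ 0 ≤ C := by
    have h1 := he (a 0)
    simp only [hσ, hS, pow_zero, div_one]
    have h2 : e (a 0 + 1) - e (a 0) ≤ C := by linarith [h1.2]
    exact_mod_cast h2
  have hσJ : 0 ≤ σ J := by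
    have h1 := (mono_lip e C he (a J) (N ^ J)).1
    simp only [hσ, hS]
    apply div_nonneg _ (by positivity)
    have : (0 : ℤ) ≤ e (a J + N ^ J) - e (a J) := by linarith
    exact_mod_cast this
  have hex : ∃ j, j < J ∧ σ j - σ (j + 1) ≤ C / J := by
    by_contra hcon
    push Not at hcon
    have h1 : ∑ j ∈ Finset.range J, (σ j - σ (j + 1)) = σ 0 - σ J := by
      rw [Finset.sum_range_sub']
    have h2 : ∑ j ∈ Finset.range J, (C / J : ℝ) < ∑ j ∈ Finset.range J, (σ j - σ (j + 1)) := by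
      apply Finset.sum_lt_sum_of_nonempty
      · exact ⟨0, Finset.mem_range.mpr hJ⟩
      · intro j hj
        exact hcon j (Finset.mem_range.mp hj)
    rw [h1, Finset.sum_const, Finset.card_range, nsmul_eq_mul] at h2
    have h3 : (J : ℝ) * (C / J) = C := by field_simp
    rw [h3] at h2
    linarith
  obtain ⟨j, hj, hjσ⟩ := hex
  have hj1 := ha (j + 1) (by omega)
  have hj0 := ha j (by omega)
  set l := N ^ j with hl
  have hlpos : 0 < l := by positivity
  have hNl : N ^ (j + 1) = N * l := by rw [pow_succ, mul_comm]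
  set M := σ (j + 1) with hM
  have hlr : (0 : ℝ) < l := by exact_mod_cast hlpos
  have hlcast : (N : ℝ) ^ j = l := by rw [hl]; push_cast; ring
  have hlcast1 : (N : ℝ) ^ (j + 1) = N * l := by rw [pow_succ, hlcast, mul_comm]
  have hSj : (S j : ℝ) ≤ l * (M + C / J) := by
    have h1 : σ j ≤ M + C / J := by linarith
    have h2 : (S j : ℝ) = l * σ j := by
      simp only [hσ, hlcast]
      field_simp
    rw [h2]
    exact mul_le_mul_of_nonneg_left h1 hlr.le
  have hSj1 : (S (j + 1) : ℝ) = N * l * M := by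
    simp only [hM, hσ, hlcast1]
    field_simp
  have hM0 : 0 ≤ M := by
    have h1 := (mono_lip e C he (a (j + 1)) (N ^ (j + 1))).1
    simp only [hM, hσ, hS]
    apply div_nonneg _ (by positivity)
    have : (0 : ℤ) ≤ e (a (j + 1) + N ^ (j + 1)) - e (a (j + 1)) := by linarith
    exact_mod_cast this
  have hMC : M ≤ C := by
    have h1 := (mono_lip e C he (a (j + 1)) (N ^ (j + 1))).2
    have h2 : S (j + 1) ≤ C * (N ^ (j + 1) : ℕ) := by simp only [hS]; linarith
    have h3 : (S (j + 1) : ℝ) ≤ C * (N * l) := by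
      have : (S (j + 1) : ℝ) ≤ C * ((N ^ (j + 1) : ℕ) : ℝ) := by exact_mod_cast h2
      rw [hNl] at this
      push_cast at this
      exact this
    rw [hSj1] at h3
    have h4 : (0 : ℝ) < N * l := by positivity
    nlinarith
  refine ⟨j, a (j + 1), M, hj, hj1.1, ?_⟩
  intro i hi
  set A := a (j + 1) with hA
  -- i = t * l + s
  set t := i / l with ht
  set s := i % l with hs
  have his : i = t * l + s := by rw [ht, hs]; exact (Nat.div_add_mod' i l).symm
  have hsl : s < l := Nat.mod_lt _ hlpos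
  have htN : t ≤ N := by
    rw [hNl] at hi
    by_contra hcon
    push Not at hcon
    have : (N + 1) * l ≤ t * l := Nat.mul_le_mul_right l hcon
    have h5 : (N + 1) * l = N * l + l := by ring
    omega
  have hAle : A + N * l ≤ N ^ J := by rw [← hNl]; exact hj1.1
  have hb1 : e (A + t * l) - e A ≤ t * S j := by
    apply blocks_le
    intro r hr
    apply hj0.2
    have : (r + 1) * l ≤ N * l := Nat.mul_le_mul_right l (by omega)
    have h5 : (r + 1) * l = r * l + l := by ring
    omega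
  have hb2 : e (A + N * l) - e (A + t * l) ≤ (N - t : ℕ) * S j := by
    have h6 : A + N * l = (A + t * l) + (N - t) * l := by
      have : t * l + (N - t) * l = N * l := by rw [← add_mul]; congr 1; omega
      omega
    rw [h6]
    apply blocks_le
    intro r hr
    apply hj0.2
    have h7 : t * l + (r * l + l) ≤ N * l := by
      have : (t + (r + 1)) * l ≤ N * l := Nat.mul_le_mul_right l (by omega)
      have h5 : (t + (r + 1)) * l = t * l + (r * l + l) := by ring
      omega
    omega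
  have hb3 := mono_lip e C he (A + t * l) s
  have hi' : A + i = A + t * l + s := by omega
  rw [hi']
  have hS1 : e (A + N * l) - e A = S (j + 1) := by
    simp only [hS]
    rw [hNl]
  -- pass to reals
  have r1 : ((e (A + t * l) - e A : ℤ) : ℝ) ≤ t * (l * (M + C / J)) := by
    have h8 : ((e (A + t * l) - e A : ℤ) : ℝ) ≤ t * (S j : ℝ) := by exact_mod_cast hb1
    exact le_trans h8 (mul_le_mul_of_nonneg_left hSj (by positivity))
  have r2 : (N * l * M : ℝ) - ((N - t : ℕ) : ℝ) * (l * (M + C / J)) ≤ ((e (A + t * l) - e A : ℤ) : ℝ) := by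
    have h8 : (((S (j + 1)) - (e (A + t * l) - e A) : ℤ) : ℝ) ≤ ((N - t : ℕ) : ℝ) * (S j : ℝ) := by
      have : S (j + 1) - (e (A + t * l) - e A) ≤ (N - t : ℕ) * S j := by rw [← hS1]; linarith
      exact_mod_cast this
    have h9 : ((N - t : ℕ) : ℝ) * (S j : ℝ) ≤ ((N - t : ℕ) : ℝ) * (l * (M + C / J)) :=
      mul_le_mul_of_nonneg_left hSj (by positivity)
    push_cast at h8 ⊢
    rw [hSj1] at h8
    linarith
  have r3 : (0 : ℝ) ≤ ((e (A + t * l + s) - e (A + t * l) : ℤ) : ℝ) := by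
    have : (0 : ℤ) ≤ e (A + t * l + s) - e (A + t * l) := by linarith [hb3.1]
    exact_mod_cast this
  have r4 : ((e (A + t * l + s) - e (A + t * l) : ℤ) : ℝ) ≤ C * l := by
    have h10 : e (A + t * l + s) - e (A + t * l) ≤ C * s := by linarith [hb3.2]
    have h11 : ((e (A + t * l + s) - e (A + t * l) : ℤ) : ℝ) ≤ C * s := by exact_mod_cast h10
    have h12 : (s : ℝ) ≤ l := by exact_mod_cast hsl.le
    have h13 : (C : ℝ) * s ≤ C * l := mul_le_mul_of_nonneg_left h12 (by positivity)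
    linarith
  have hicast : (i : ℝ) = t * l + s := by rw [his]; push_cast; ring
  have hNt : ((N - t : ℕ) : ℝ) = N - t := by rw [Nat.cast_sub htN]
  rw [hNt] at r2
  have htr : (0 : ℝ) ≤ t := by positivity
  have htNr : (t : ℝ) ≤ N := by exact_mod_cast htN
  have hsr : (s : ℝ) ≤ l := by exact_mod_cast hsl.le
  have hs0 : (0 : ℝ) ≤ s := by positivity
  have hCJ : (0 : ℝ) ≤ C / J := by positivity
  have hCN : (N : ℝ) * l * (C / N) = C * l := by field_simp
  rw [hlcast1, hicast]
  have hsplit : ((e (A + t * l + s) - e A : ℤ) : ℝ) = ((e (A + t * l + s) - e (A + t * l) : ℤ) : ℝ)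
      + ((e (A + t * l) - e A : ℤ) : ℝ) := by push_cast; ring
  have hgoal : (N : ℝ) * l * (C / J + C / N) = N * l * (C / J) + C * l := by rw [mul_add, hCN]
  rw [hsplit, hgoal, abs_le]
  have hMs : M * s ≤ C * l := by
    calc M * s ≤ C * s := mul_le_mul_of_nonneg_right hMC hs0
      _ ≤ C * l := mul_le_mul_of_nonneg_left hsr (by positivity)
  have hMs0 : 0 ≤ M * s := mul_nonneg hM0 hs0
  have x1 : (t : ℝ) * (l * (C / J)) ≤ N * l * (C / J) := by
    have : (t : ℝ) * (l * (C / J)) ≤ N * (l * (C / J)) := mul_le_mul_of_nonneg_right htNr (by positivity)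
    linarith
  have x2 : ((N : ℝ) - t) * (l * (C / J)) ≤ N * l * (C / J) := by
    have : ((N : ℝ) - t) * (l * (C / J)) ≤ N * (l * (C / J)) := mul_le_mul_of_nonneg_right (by linarith) (by positivity)
    linarith
  have r1' : ((e (A + t * l) - e A : ℤ) : ℝ) ≤ M * (t * l) + t * (l * (C / J)) := by
    have h20 : (t : ℝ) * (l * (M + C / J)) = M * (t * l) + t * (l * (C / J)) := by ring
    rw [h20] at r1
    exact r1
  have r2' : M * (t * l) - ((N : ℝ) - t) * (l * (C / J)) ≤ ((e (A + t * l) - e A : ℤ) : ℝ) := by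
    have h20 : (N * l * M : ℝ) - ((N : ℝ) - t) * (l * (M + C / J)) = M * (t * l) - ((N : ℝ) - t) * (l * (C / J)) := by
      ring
    rw [h20] at r2
    exact r2
  constructor
  · linarith
  · linarith

/-- six collinear points in every window of bounded length -/
theorem collinear6 (C : ℕ) : ∃ L : ℕ, ∀ e : ℕ → ℤ, (∀ i, e i ≤ e (i + 1) ∧ e (i + 1) ≤ e i + C) →
    ∀ b : ℕ, ∃ i : Fin 6 → ℕ, StrictMono i ∧ (∀ j, b ≤ i j ∧ i j ≤ b + L) ∧
      ∀ j, ((i 1 : ℤ) - i 0) * (e (i j) - e (i 0)) = (e (i 1) - e (i 0)) * ((i j : ℤ) - i 0) := by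
  set N : ℕ := 4000 * (C + 1) with hN
  have hNpos : 0 < N := by positivity
  refine ⟨N ^ N, ?_⟩
  intro e0 he0 b
  set e : ℕ → ℤ := fun i => e0 (b + i) with he
  have he' : ∀ i, e i ≤ e (i + 1) ∧ e (i + 1) ≤ e i + C := fun i => he0 (b + i)
  obtain ⟨j, a, M, hj, haN, hlin⟩ := near_linear C N N hNpos hNpos e he'
  set l : ℕ := N ^ (j + 1) with hl
  have hl4000 : 4000 ≤ l := by
    calc 4000 ≤ N := by rw [hN]; omega
      _ = N ^ 1 := (pow_one N).symm
      _ ≤ N ^ (j + 1) := Nat.pow_le_pow_right hNpos (by omega)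
  have hlr : (4000 : ℝ) ≤ l := by exact_mod_cast hl4000
  have hlcast : (N : ℝ) ^ (j + 1) = l := by rw [hl]; push_cast; ring
  obtain ⟨p, q, hq0, hq40, hpq⟩ := Real.exists_int_int_abs_mul_sub_le M (n := 40) (by norm_num)
  set κ : ℕ → ℤ := fun i => q * (e (a + i) - e a) - p * i with hκ
  have hNr : (0 : ℝ) < N := by exact_mod_cast hNpos
  have hCN : (C : ℝ) / N ≤ 1 / 4000 := by
    rw [div_le_div_iff₀ hNr (by norm_num), hN]
    push_cast
    linarith
  have hκb : ∀ i, i < l → κ i ∈ Finset.Icc (-((l / 16 : ℕ) : ℤ)) ((l / 16 : ℕ) : ℤ) := by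
    intro i hi
    have h1 := hlin i hi.le
    rw [hlcast] at h1
    have h2 : ((κ i : ℤ) : ℝ) = q * (((e (a + i) - e a : ℤ) : ℝ) - M * i) + (q * M - p) * i := by
      simp only [hκ]; push_cast; ring
    have hq0r : (0 : ℝ) < q := by exact_mod_cast hq0
    have hq40r : (q : ℝ) ≤ 40 := by exact_mod_cast hq40
    have hir : (i : ℝ) ≤ l := by exact_mod_cast hi.le
    have hi0r : (0 : ℝ) ≤ (i : ℝ) := Nat.cast_nonneg i
    have hfirst : (q : ℝ) * |(((e (a + i) - e a : ℤ) : ℝ) - M * i)| ≤ 40 * (l * (C / N + C / N)) :=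
      mul_le_mul hq40r h1 (abs_nonneg _) (by norm_num)
    have hpq' : |(q : ℝ) * M - p| ≤ 1 / 41 := by
      have h30 := hpq
      norm_num at h30 ⊢
      exact h30
    have hsecond : |(q : ℝ) * M - p| * i ≤ 1 / 41 * l :=
      mul_le_mul hpq' hir hi0r (by norm_num)
    have hthird : (l : ℝ) * (C / N + C / N) ≤ l * (1 / 2000) :=
      mul_le_mul_of_nonneg_left (by linarith) (by linarith)
    have h3 : |((κ i : ℤ) : ℝ)| ≤ l / 20 := by
      rw [h2]
      calc |(q : ℝ) * (((e (a + i) - e a : ℤ) : ℝ) - M * i) + (q * M - p) * i|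
          ≤ |(q : ℝ) * (((e (a + i) - e a : ℤ) : ℝ) - M * i)| + |(q * M - p) * i| := abs_add_le _ _
        _ = q * |(((e (a + i) - e a : ℤ) : ℝ) - M * i)| + |q * M - p| * i := by
            rw [abs_mul, abs_mul, abs_of_pos hq0r, abs_of_nonneg hi0r]
        _ ≤ 40 * (l * (C / N + C / N)) + 1 / 41 * l := add_le_add hfirst hsecond
        _ ≤ l / 20 := by linarith
    have hl0r : (0 : ℝ) ≤ (l : ℝ) := by linarith
    have h4 : |((κ i : ℤ) : ℝ)| * 16 ≤ l := by linarith
    have h5 : |κ i| * 16 ≤ (l : ℤ) := by exact_mod_cast h4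
    have h6 : |κ i| ≤ ((l / 16 : ℕ) : ℤ) := by
      push_cast
      omega
    rw [Finset.mem_Icc]
    exact abs_le.mp h6
  obtain ⟨y, hy, hcard⟩ := Finset.exists_lt_card_fiber_of_mul_lt_card_of_maps_to
    (s := Finset.range l) (t := Finset.Icc (-((l / 16 : ℕ) : ℤ)) ((l / 16 : ℕ) : ℤ)) (f := κ) (n := 5)
    (fun i hi => hκb i (Finset.mem_range.mp hi)) (by
      rw [Int.card_Icc, Finset.card_range]
      omega)
  obtain ⟨T, hT, hTc⟩ := Finset.exists_subset_card_eq (show 6 ≤ _ from hcard)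
  let f : Fin 6 ↪o ℕ := T.orderEmbOfFin hTc
  have hf : ∀ j, f j ∈ (Finset.range l).filter (fun x => κ x = y) := fun j =>
    hT (T.orderEmbOfFin_mem hTc j)
  refine ⟨fun j => b + (a + f j), ?_, ?_, ?_⟩
  · intro x y' hxy
    have := f.strictMono hxy
    simp only
    omega
  · intro j'
    have h1 := Finset.mem_range.mp (Finset.mem_filter.mp (hf j')).1
    simp only
    constructor
    · omega
    · omega
  · intro j'
    have h0 := (Finset.mem_filter.mp (hf 0)).2
    have h1 := (Finset.mem_filter.mp (hf 1)).2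
    have h2 := (Finset.mem_filter.mp (hf j')).2
    simp only [hκ, he] at h0 h1 h2
    have hqne : q ≠ 0 := hq0.ne'
    apply mul_left_cancel₀ hqne
    push_cast
    have g1 : q * (e0 (b + (a + f j')) - e0 (b + (a + f 0))) = p * ((f j' : ℤ) - f 0) := by linarith
    have g2 : q * (e0 (b + (a + f 1)) - e0 (b + (a + f 0))) = p * ((f 1 : ℤ) - f 0) := by linarith
    linear_combination ((f 1 : ℤ) - f 0) * g1 - ((f j' : ℤ) - f 0) * g2

end Pool.Agent.Helper365
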