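import Mathlib
import Pool.Agent.Helper365.Cases
import Pool.Agent.Helper365.Comb

set_option autoImplicit false

namespace Pool.Agent.Helper365

/-- square root of the square part -/
noncomputable def Bf (n : ℕ) : ℕ := (Nat.sq_mul_squarefree n).choose_spec.choose

noncomputable def Af (n : ℕ) : ℕ := (Nat.sq_mul_squarefree n).choose

lemma Bf_spec (n : ℕ) : Bf n ^ 2 * Af n = n ∧ Squarefree (Af n) :=
  (Nat.sq_mul_squarefree n).choose_spec.choose_spec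

lemma mkSx {t1 t2 t3 t4 t5 D y0 y1 y2 y3 y4 y5 : ℤ} (ht1 : 0 < t1) (hD : 0 < D) (p0 : 0 < y0) (p2 : 0 < y2)
    (h1 : y1 ^ 2 = y0 ^ 2 + t1 * D) (h2 : y2 ^ 2 = y0 ^ 2 + t2 * D)
    (h3 : y3 ^ 2 = y0 ^ 2 + t3 * D) (h4 : y4 ^ 2 = y0 ^ 2 + t4 * D) (h5 : y5 ^ 2 = y0 ^ 2 + t5 * D) :
    ∃ s : Sx t1 t2 t3 t4 t5 t1.natAbs, s.z0 * (Bf (Nat.gcd (y0.natAbs ^ 2) D.natAbs) : ℤ) = y0 ∧
      s.E * (Bf (Nat.gcd (y0.natAbs ^ 2) D.natAbs) : ℤ) ^ 2 = D := by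
  set n := Nat.gcd (y0.natAbs ^ 2) D.natAbs with hn
  obtain ⟨hab, hsq⟩ := Bf_spec n
  set a := Af n with ha
  set b := Bf n with hb
  have hnpos : 0 < n := Nat.gcd_pos_of_pos_right _ (Int.natAbs_pos.mpr hD.ne')
  have hbpos : 0 < b := by
    rcases Nat.eq_zero_or_pos b with h | h
    · rw [h] at hab; simp at hab; omega
    · exact h
  have hbz : (b : ℤ) ≠ 0 := by exact_mod_cast hbpos.ne'
  have hbpz : (0 : ℤ) < b := by exact_mod_cast hbpos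
  have hbn : b ^ 2 ∣ n := ⟨a, hab.symm⟩
  have hbD : (b : ℤ) ^ 2 ∣ D := by
    have h6 : b ^ 2 ∣ D.natAbs := dvd_trans hbn (Nat.gcd_dvd_right _ _)
    have h7 := Int.natCast_dvd.mpr h6
    push_cast at h7
    exact h7
  have hby : ∀ {y t : ℤ}, y ^ 2 = y0 ^ 2 + t * D → (b : ℤ) ∣ y := by
    intro y t hy
    have h6 : b ^ 2 ∣ y0.natAbs ^ 2 := dvd_trans hbn (Nat.gcd_dvd_left _ _)
    have h7 : (b : ℤ) ^ 2 ∣ y0 ^ 2 := by
      have h8 : ((b ^ 2 : ℕ) : ℤ) ∣ y0 ^ 2 := by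
        rw [Int.natCast_dvd, Int.natAbs_pow]; exact h6
      push_cast at h8
      exact h8
    have h9 : (b : ℤ) ^ 2 ∣ y ^ 2 := by
      rw [hy]
      exact dvd_add h7 (Dvd.dvd.mul_left hbD _)
    exact (Int.pow_dvd_pow_iff (by norm_num)).mp h9
  obtain ⟨E, hE⟩ := hbD
  obtain ⟨z0, hz0⟩ := hby (y := y0) (t := 0) (by ring)
  obtain ⟨z1, hz1⟩ := hby h1
  obtain ⟨z2, hz2⟩ := hby h2
  obtain ⟨z3, hz3⟩ := hby h3
  obtain ⟨z4, hz4⟩ := hby h4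
  obtain ⟨z5, hz5⟩ := hby h5
  have hb2 : (b : ℤ) ^ 2 ≠ 0 := pow_ne_zero 2 hbz
  have hEpos : 0 < E := by
    rw [hE] at hD
    exact (pos_iff_pos_of_mul_pos hD).mp (by positivity)
  have hz0pos : 0 < z0 := by
    rw [hz0] at p0
    exact (pos_iff_pos_of_mul_pos p0).mp hbpz
  have hz2pos : 0 < z2 := by
    rw [hz2] at p2
    exact (pos_iff_pos_of_mul_pos p2).mp hbpz
  have hred : ∀ {z y t : ℤ}, y = b * z → y ^ 2 = y0 ^ 2 + t * D → z ^ 2 = z0 ^ 2 + t * E := by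
    intro z y t hy h
    rw [hy, hz0, hE] at h
    apply mul_left_cancel₀ hb2
    linear_combination h
  have hg : Nat.gcd E.natAbs (z0.natAbs ^ 2) = a := by
    have h6 : b ^ 2 * Nat.gcd E.natAbs (z0.natAbs ^ 2) = b ^ 2 * a := by
      rw [hab, hn, ← Nat.gcd_mul_left, Nat.gcd_comm]
      congr 1
      · rw [hz0, Int.natAbs_mul, mul_pow, Int.natAbs_natCast]
      · rw [hE, Int.natAbs_mul, Int.natAbs_pow, Int.natAbs_natCast]
    exact Nat.eq_of_mul_eq_mul_left (by positivity) h6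
  have hz1e := hred hz1 h1
  have hat : a ∣ t1.natAbs := by
    have hpr : ∀ p : ℕ, p.Prime → p ∣ a → p ∣ t1.natAbs := by
      intro p pp hpa
      have hpE : p ∣ E.natAbs := by rw [← hg] at hpa; exact dvd_trans hpa (Nat.gcd_dvd_left _ _)
      have hpz : p ∣ z0.natAbs := by
        rw [← hg] at hpa
        exact pp.dvd_of_dvd_pow (dvd_trans hpa (Nat.gcd_dvd_right _ _))
      have hpE' : (p : ℤ) ∣ E := Int.natCast_dvd.mpr hpE
      have hpz' : (p : ℤ) ∣ z0 := Int.natCast_dvd.mpr hpz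
      have hpp : Prime (p : ℤ) := Nat.prime_iff_prime_int.mp pp
      have hpz1 : (p : ℤ) ∣ z1 := by
        apply hpp.dvd_of_dvd_pow (n := 2)
        rw [hz1e]
        exact dvd_add (Dvd.dvd.pow hpz' (by norm_num)) (Dvd.dvd.mul_left hpE' _)
      have h6 : (p : ℤ) ^ 2 ∣ t1 * E := by
        have h7 : t1 * E = z1 ^ 2 - z0 ^ 2 := by rw [hz1e]; ring
        rw [h7]
        exact dvd_sub (pow_dvd_pow_of_dvd hpz1 2) (pow_dvd_pow_of_dvd hpz' 2)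
      by_contra hnt
      have hnt' : ¬ (p : ℤ) ∣ t1 := fun h => hnt (Int.natCast_dvd.mp h)
      have hcop : IsCoprime ((p : ℤ) ^ 2) t1 := by
        apply IsCoprime.pow_left
        exact (Prime.coprime_iff_not_dvd hpp).mpr hnt'
      have h8 : (p : ℤ) ^ 2 ∣ E := hcop.dvd_of_dvd_mul_left h6
      have h9 : p ^ 2 ∣ E.natAbs := by
        have : ((p ^ 2 : ℕ) : ℤ) ∣ E := by push_cast; exact h8
        exact Int.natCast_dvd.mp this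
      have h10 : p ^ 2 ∣ z0.natAbs ^ 2 := pow_dvd_pow_of_dvd hpz 2
      have h11 : p ^ 2 ∣ a := by rw [← hg]; exact Nat.dvd_gcd h9 h10
      rw [sq] at h11
      exact pp.one_lt.ne' (Nat.isUnit_iff.mp (hsq p h11))
    rw [← Nat.prod_primeFactors_of_squarefree hsq]
    refine dvd_trans (Finset.prod_dvd_prod_of_subset _ _ _ ?_) (Nat.prod_primeFactors_dvd t1.natAbs)
    intro p hp'
    rw [Nat.mem_primeFactors] at hp' ⊢
    exact ⟨hp'.1, hpr p hp'.1 hp'.2.1, Int.natAbs_ne_zero.mpr ht1.ne'⟩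
  exact ⟨⟨z0, z1, z2, z3, z4, z5, E, hz0pos, hz2pos, hEpos, hz1e, hred hz2 h2, hred hz3 h3,
    hred hz4 h4, hred hz5 h5, by rw [hg]; exact hat⟩, by simp only; rw [hz0]; ring, by
      simp only; conv_rhs => rw [hE]
      ring⟩

/-- case 1 as a predicate -/
def C1 (t1 t2 t3 t4 t5 : ℤ) (V Y : ℕ) : Prop :=
  ∀ (T : Finset ℕ), V ≤ T.card → ∀ (s : ℕ → Sx t1 t2 t3 t4 t5 t1.natAbs) (E : ℤ), (Y : ℤ) ≤ E →
    (∀ w ∈ T, (s w).E = E) →
      (∀ w ∈ T, ∀ w' ∈ T, w ≠ w' → (s w).z0 ≠ (s w').z0) → False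

/-- case 2 as a predicate -/
def C2 (t1 t2 t3 t4 t5 : ℤ) (V K Y : ℕ) : Prop :=
  ∀ (T : Finset ℕ), V + 2 ≤ T.card →
      ∀ (s : ℕ → Sx t1 t2 t3 t4 t5 t1.natAbs) (b : ℕ → ℕ) (D : ℕ), Y ≤ D →
      (∀ w ∈ T, (s w).E * (b w : ℤ) ^ 2 = D) →
      (∀ w ∈ T, ∀ w' ∈ T, w ≠ w' → (s w).z0 * b w ≠ (s w').z0 * b w') →
      (∀ w ∈ T, ∀ w' ∈ T, w ≠ w' → Nat.gcd (b w ^ 2) (b w' ^ 2) ≤ K) →
      (∀ w ∈ T, (s w).z0 * b w ≤ t1 * D) → False

lemma C1_mono {t1 t2 t3 t4 t5 : ℤ} {V Y V' Y' : ℕ} (h : C1 t1 t2 t3 t4 t5 V Y) (hV : V ≤ V')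
    (hY : Y ≤ Y') : C1 t1 t2 t3 t4 t5 V' Y' := by
  intro T hT s E hE
  exact h T (le_trans hV hT) s E (le_trans (by exact_mod_cast hY) hE)

lemma C2_mono {t1 t2 t3 t4 t5 : ℤ} {V K Y V' Y' : ℕ} (h : C2 t1 t2 t3 t4 t5 V K Y) (hV : V ≤ V')
    (hY : Y ≤ Y') : C2 t1 t2 t3 t4 t5 V' K Y' := by
  intro T hT s b D hD
  exact h T (by omega) s b D (le_trans hY hD)

lemma C1_ex {t1 t2 t3 t4 t5 : ℤ} (h01 : 0 < t1) (h12 : t1 < t2) (h23 : t2 < t3) (h34 : t3 < t4)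
    (h45 : t4 < t5) : ∃ V Y, C1 t1 t2 t3 t4 t5 V Y := by
  obtain ⟨V, Y, h⟩ := case1 h01 h12 h23 h34 h45 (δ := t1.natAbs) (Int.natAbs_pos.mpr h01.ne')
  refine ⟨V, Y, ?_⟩
  intro T hT s E hE hs hne
  obtain ⟨T', hT', hT'c⟩ := Finset.exists_subset_card_eq hT
  let g : Fin V → ℕ := fun j => (T'.equivFin.symm (Fin.cast hT'c.symm j)).1
  have hg : ∀ j, g j ∈ T := fun j => hT' (T'.equivFin.symm (Fin.cast hT'c.symm j)).2
  have hginj : ∀ j j', j ≠ j' → g j ≠ g j' := by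
    intro j j' hjj h
    apply hjj
    have h1 : T'.equivFin.symm (Fin.cast hT'c.symm j) = T'.equivFin.symm (Fin.cast hT'c.symm j') := Subtype.ext h
    have h2 := T'.equivFin.symm.injective h1
    exact Fin.cast_injective _ h2
  exact h (fun j => s (g j)) E hE (fun w => hs _ (hg w)) (fun w w' hww => hne _ (hg w) _ (hg w') (hginj w w' hww))

lemma C2_ex {t1 t2 t3 t4 t5 : ℤ} (h01 : 0 < t1) (h12 : t1 < t2) (h23 : t2 < t3) (h34 : t3 < t4)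
    (h45 : t4 < t5) : ∃ V, ∀ K, ∃ Y, C2 t1 t2 t3 t4 t5 V K Y :=
  case2 h01 h12 h23 h34 h45 (δ := t1.natAbs) (Int.natAbs_pos.mpr h01.ne')

lemma exists_unif {ι : Type} (S : Finset ι) (P : ι → ℕ → Prop) (hmono : ∀ i n m, n ≤ m → P i n → P i m)
    (hex : ∀ i ∈ S, ∃ n, P i n) : ∃ n, ∀ i ∈ S, P i n := by
  classical
  induction S using Finset.induction_on with
  | empty => exact ⟨0, by simp⟩
  | insert a S ha ih =>
    obtain ⟨n, hn⟩ := ih (fun i hi => hex i (Finset.mem_insert_of_mem hi))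
    obtain ⟨m, hm⟩ := hex a (Finset.mem_insert_self _ _)
    refine ⟨max n m, ?_⟩
    intro i hi
    rcases Finset.mem_insert.mp hi with h | h
    · subst h; exact hmono _ _ _ (le_max_right _ _) hm
    · exact hmono _ _ _ (le_max_left _ _) (hn i h)

/-- uniformity over all offset patterns bounded by `L` -/
lemma unif (L : ℕ) : ∃ V : ℕ, 0 < V ∧ ∀ K : ℕ, ∃ Y : ℕ, ∀ t : Fin 5 → ℕ, 0 < t 0 → t 0 < t 1 → t 1 < t 2 → t 2 < t 3 →
    t 3 < t 4 → (∀ j, t j ≤ L) → C1 (t 0) (t 1) (t 2) (t 3) (t 4) V Y ∧ C2 (t 0) (t 1) (t 2) (t 3) (t 4) V K Y := by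
  classical
  set S : Finset (Fin 5 → ℕ) := (Fintype.piFinset (fun _ => Finset.range (L + 1))).filter
    (fun t => 0 < t 0 ∧ t 0 < t 1 ∧ t 1 < t 2 ∧ t 2 < t 3 ∧ t 3 < t 4) with hS
  obtain ⟨V, hV⟩ := exists_unif S (fun t V => (∃ Y, C1 (t 0) (t 1) (t 2) (t 3) (t 4) V Y) ∧
      ∀ K, ∃ Y, C2 (t 0) (t 1) (t 2) (t 3) (t 4) V K Y)
    (by
      intro t n m hnm h
      obtain ⟨⟨Y, h1⟩, h2⟩ := h
      refine ⟨⟨Y, C1_mono h1 hnm le_rfl⟩, fun K => ?_⟩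
      obtain ⟨Y', h3⟩ := h2 K
      exact ⟨Y', C2_mono h3 hnm le_rfl⟩)
    (by
      intro t ht
      obtain ⟨a0, a1, a2, a3, a4⟩ := (Finset.mem_filter.mp ht).2
      have b0 : (0 : ℤ) < t 0 := by exact_mod_cast a0
      have b1 : (t 0 : ℤ) < t 1 := by exact_mod_cast a1
      have b2 : (t 1 : ℤ) < t 2 := by exact_mod_cast a2
      have b3 : (t 2 : ℤ) < t 3 := by exact_mod_cast a3
      have b4 : (t 3 : ℤ) < t 4 := by exact_mod_cast a4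
      obtain ⟨V1, Y1, h1⟩ := C1_ex b0 b1 b2 b3 b4
      obtain ⟨V2, h2⟩ := C2_ex b0 b1 b2 b3 b4
      refine ⟨max V1 V2, ⟨Y1, C1_mono h1 (le_max_left _ _) le_rfl⟩, fun K => ?_⟩
      obtain ⟨Y', h3⟩ := h2 K
      exact ⟨Y', C2_mono h3 (le_max_right _ _) le_rfl⟩)
  refine ⟨V + 1, by omega, fun K => ?_⟩
  obtain ⟨Y, hY⟩ := exists_unif S (fun t Y => C1 (t 0) (t 1) (t 2) (t 3) (t 4) (V + 1) Y ∧
      C2 (t 0) (t 1) (t 2) (t 3) (t 4) (V + 1) K Y)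
    (by
      intro t n m hnm h
      exact ⟨C1_mono h.1 le_rfl hnm, C2_mono h.2 le_rfl hnm⟩)
    (by
      intro t ht
      obtain ⟨⟨Y1, h1⟩, h2⟩ := hV t ht
      obtain ⟨Y2, h3⟩ := h2 K
      exact ⟨max Y1 Y2, C1_mono h1 (by omega) (le_max_left _ _), C2_mono h3 (by omega) (le_max_right _ _)⟩)
  refine ⟨Y, fun t a0 a1 a2 a3 a4 hL => ?_⟩
  apply hY t
  rw [hS, Finset.mem_filter, Fintype.mem_piFinset]
  exact ⟨fun j => Finset.mem_range.mpr (by have := hL j; omega), a0, a1, a2, a3, a4⟩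

end Pool.Agent.Helper365
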